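import Pool.Agent.Y706.SB.UG.A8
import Pool.Agent.Y706.SB.UG.B7

/-!
# The global inequality
-/

namespace Pool.Agent.Y706.SB.UG

open Pool.Agent.TH951.W.UB Finset Polynomial

universe u

variable {k : Type*} {K : Type u} [Field k] [Field K] [Algebra k K]

/-- the normalisation -/
noncomputable def VV (Q : PlaceData k K) (f : K[X]) (v : Q.Pl) : ℝ :=
  -(Q.ord v f.leadingCoeff) / ((f.natDegree : ℝ) - 1)

/-- bad places -/
def Bad (Q : PlaceData k K) (f : K[X]) (P : Finset K) (v : Q.Pl) : Prop :=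
  ∃ x ∈ P, ∃ y ∈ P, x ≠ y ∧ (Q.ord v (x - y) : ℝ) < VV Q f v

/-- a finite set of places containing everything relevant -/
lemma exists_S (Q : PlaceData k K) (f : K[X]) (hf : f ≠ 0) (P : Finset K) :
    ∃ S : Finset Q.Pl, Q.lossS ⊆ S ∧ (∀ v, v ∉ S → Q.ord v f.leadingCoeff = 0) ∧
      (∀ v, v ∉ S → Q.loss v = 0) ∧
      ∀ v, v ∉ S → ∀ x ∈ P, ∀ y ∈ P, x ≠ y → Q.ord v (x - y) = 0 := by
  classical
  have hA : f.leadingCoeff ≠ 0 := leadingCoeff_ne_zero.mpr hf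
  refine ⟨Q.lossS ∪ (Q.fin _ hA).toFinset ∪ P.offDiag.biUnion (fun q =>
    if h : q.1 - q.2 ≠ 0 then (Q.fin _ h).toFinset else ∅), ?_, ?_, ?_, ?_⟩
  · exact Finset.subset_union_left.trans Finset.subset_union_left
  · intro v hv
    simp only [Finset.mem_union, not_or, Set.Finite.mem_toFinset, Set.mem_ofPred_eq, not_not] at hv
    exact hv.1.2
  · intro v hv
    simp only [Finset.mem_union, not_or] at hv
    exact Q.loss_supp v hv.1.1
  · intro v hv x hx y hy hxy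
    simp only [Finset.mem_union, not_or, Finset.mem_biUnion, not_exists, not_and] at hv
    have h1 := hv.2 (x, y) (Finset.mem_offDiag.mpr ⟨hx, hy, hxy⟩)
    rw [dif_pos (sub_ne_zero.mpr hxy), Set.Finite.mem_toFinset, Set.mem_ofPred_eq, not_not] at h1
    exact h1

lemma prod_zero' (Q : PlaceData k K) (S : Finset Q.Pl) (x : K) (hx : x ≠ 0)
    (hS : ∀ v, v ∉ S → Q.ord v x = 0) : ∑ v ∈ S, (Q.wt v : ℝ) * Q.ord v x = 0 := by
  have := prod_zero Q S x hx hS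
  exact_mod_cast this

lemma sum_VV (Q : PlaceData k K) (f : K[X]) (hf : f ≠ 0) (S : Finset Q.Pl)
    (hS : ∀ v, v ∉ S → Q.ord v f.leadingCoeff = 0) : ∑ v ∈ S, (Q.wt v : ℝ) * VV Q f v = 0 := by
  have h1 := prod_zero' Q S _ (leadingCoeff_ne_zero.mpr hf) hS
  unfold VV
  have h2 : ∀ v ∈ S, (Q.wt v : ℝ) * (-(Q.ord v f.leadingCoeff : ℝ) / ((f.natDegree : ℝ) - 1)) =
      ((Q.wt v : ℝ) * Q.ord v f.leadingCoeff) * (-1 / ((f.natDegree : ℝ) - 1)) := by
    intro v _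
    ring
  rw [Finset.sum_congr rfl h2, ← Finset.sum_mul, h1, zero_mul]

lemma sum_exc (Q : PlaceData k K) (f : K[X]) (hf : f ≠ 0) (P : Finset K) (S : Finset Q.Pl)
    (hS : ∀ v, v ∉ S → Q.ord v f.leadingCoeff = 0)
    (hS' : ∀ v, v ∉ S → ∀ x ∈ P, ∀ y ∈ P, x ≠ y → Q.ord v (x - y) = 0) :
    ∑ v ∈ S, (Q.wt v : ℝ) * exc Q v (VV Q f v) P = 0 := by
  classical
  unfold exc
  simp only [Finset.mul_sum]
  rw [Finset.sum_comm]
  apply Finset.sum_eq_zero
  intro x hx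
  rw [Finset.sum_comm]
  apply Finset.sum_eq_zero
  intro y hy
  by_cases hxy : x = y
  · apply Finset.sum_eq_zero
    intro v _
    rw [if_pos hxy, mul_zero]
  · have h1 := prod_zero' Q S (x - y) (sub_ne_zero.mpr hxy) fun v hv => hS' v hv x hx y hy hxy
    have h2 := sum_VV Q f hf S hS
    simp only [if_neg hxy, mul_sub, Finset.sum_sub_distrib]
    rw [h1, h2, sub_zero]

lemma sum_Wz (Q : PlaceData k K) (f : K[X]) (hf : f ≠ 0) (P : Finset K) (S : Finset Q.Pl)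
    (hS : ∀ v, v ∉ S → Q.ord v f.leadingCoeff = 0)
    (hS' : ∀ v, v ∉ S → ∀ x ∈ P, ∀ y ∈ P, x ≠ y → Q.ord v (x - y) = 0) {n : ℕ}
    (z : Fin n → K) (hz : Function.Injective z) (hzP : ∀ i, z i ∈ P) :
    ∑ v ∈ S, (Q.wt v : ℝ) * Wz Q v (VV Q f v) z = 0 := by
  classical
  unfold Wz
  simp only [Finset.mul_sum]
  rw [Finset.sum_comm]
  apply Finset.sum_eq_zero
  intro i _
  rw [Finset.sum_comm]
  apply Finset.sum_eq_zero
  intro j _
  by_cases hij : i = j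
  · apply Finset.sum_eq_zero
    intro v _
    rw [if_pos hij, mul_zero]
  · have hne : z i ≠ z j := fun h => hij (hz h)
    have h1 := prod_zero' Q S (z i - z j) (sub_ne_zero.mpr hne)
      fun v hv => hS' v hv _ (hzP i) _ (hzP j) hne
    have h2 := sum_VV Q f hf S hS
    simp only [if_neg hij, mul_sub, Finset.sum_sub_distrib]
    rw [h1, h2, sub_zero]

/-- the final arithmetic -/
lemma arith (d : ℝ) (hd : 2 ≤ d) (Hr Hi Lam X : ℝ) (hHr : 0 ≤ Hr) (hHi : 0 ≤ Hi)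
    (h1 : Hi ≤ 4 * Hr / d ^ 34) (hX : X ≤ 46080000 / d ^ 26 * Hr)
    (h2 : 15 / 4 * d ^ 4 * Hr - 2 * (10 * d ^ 5) * (2 * d - 1) * Hi - X ≤ 4 * (10 * d ^ 5) * Lam) :
    Hr + Hi ≤ 12 * d * Lam := by
  have hd0 : 0 < d := by linarith
  have e28 : (268435456 : ℝ) ≤ d ^ 28 := by
    calc (268435456 : ℝ) = 2 ^ 28 := by norm_num
      _ ≤ d ^ 28 := pow_le_pow_left₀ (by norm_num) hd 28
  have e26 : (67108864 : ℝ) ≤ d ^ 26 := by
    calc (67108864 : ℝ) = 2 ^ 26 := by norm_num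
      _ ≤ d ^ 26 := pow_le_pow_left₀ (by norm_num) hd 26
  have e34 : (17179869184 : ℝ) ≤ d ^ 34 := by
    calc (17179869184 : ℝ) = 2 ^ 34 := by norm_num
      _ ≤ d ^ 34 := pow_le_pow_left₀ (by norm_num) hd 34
  have e4 : (16 : ℝ) ≤ d ^ 4 := by
    calc (16 : ℝ) = 2 ^ 4 := by norm_num
      _ ≤ d ^ 4 := pow_le_pow_left₀ (by norm_num) hd 4
  have hX' : X ≤ Hr := by
    refine hX.trans ?_
    have : 46080000 / d ^ 26 ≤ 1 := by
      rw [div_le_one (by positivity)]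
      linarith
    nlinarith
  have hHi' : 2 * (10 * d ^ 5) * (2 * d - 1) * Hi ≤ Hr := by
    have h3 : 2 * (10 * d ^ 5) * (2 * d - 1) * Hi ≤ 40 * d ^ 6 * Hi := by
      have h4 : 2 * (10 * d ^ 5) * (2 * d - 1) ≤ 40 * d ^ 6 := by
        have h5 : 0 < d ^ 5 := by positivity
        nlinarith
      exact mul_le_mul_of_nonneg_right h4 hHi
    have h4 : 40 * d ^ 6 * Hi ≤ 40 * d ^ 6 * (4 * Hr / d ^ 34) :=
      mul_le_mul_of_nonneg_left h1 (by positivity)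
    have h5 : 40 * d ^ 6 * (4 * Hr / d ^ 34) = 160 / d ^ 28 * Hr := by
      field_simp
      ring
    have h6 : 160 / d ^ 28 ≤ 1 := by
      rw [div_le_one (by positivity)]
      linarith
    nlinarith
  have hHi'' : Hi ≤ Hr / 100 := by
    refine h1.trans ?_
    rw [div_le_div_iff₀ (by positivity) (by norm_num)]
    nlinarith
  have h7 : 15 / 4 * d ^ 4 * Hr - 2 * Hr ≤ 40 * d ^ 5 * Lam := by linarith
  have h8 : 29 / 8 * d ^ 4 * Hr ≤ 40 * d ^ 5 * Lam := by nlinarith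
  have h9 : 29 / 8 * Hr ≤ 40 * d * Lam := by
    have h10 : d ^ 4 * (29 / 8 * Hr) ≤ d ^ 4 * (40 * d * Lam) := by nlinarith
    exact le_of_mul_le_mul_left h10 (by positivity)
  linarith

end Pool.Agent.Y706.SB.UG
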