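import Pool.Agent.TH951.W.UB.Pl

/-!
# Extending a place to an algebraically closed field
-/

namespace Pool.Agent.Y706.SB.UG

open Pool.Agent.TH951.W.UB Finset

universe u

variable {k : Type*} {K : Type u} [Field k] [Field K] [Algebra k K]

/-- The absolute value of a place. -/
noncomputable def absv (Q : PlaceData k K) (v : Q.Pl) : AbsoluteValue K ℝ := by
  classical
  exact
  { toFun := fun x => if x = 0 then 0 else Real.exp (-(Q.ord v x : ℝ))
    map_mul' := by
      intro x y
      by_cases hx : x = 0
      · simp [hx]
      by_cases hy : y = 0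
      · simp [hy]
      simp only [mul_eq_zero, hx, hy, or_self, if_false]
      rw [Q.ord_mul v x y hx hy, ← Real.exp_add]
      congr 1
      push_cast
      ring
    nonneg' := by
      intro x
      show 0 ≤ (if x = 0 then (0:ℝ) else Real.exp (-(Q.ord v x : ℝ)))
      split_ifs
      · exact le_refl 0
      · exact (Real.exp_pos _).le
    eq_zero' := by
      intro x
      show (if x = 0 then (0:ℝ) else Real.exp (-(Q.ord v x : ℝ))) = 0 ↔ x = 0
      split_ifs with h
      · simp [h]
      · simp [h, (Real.exp_pos _).ne']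
    add_le' := by
      intro x y
      show (if x + y = 0 then (0:ℝ) else Real.exp (-(Q.ord v (x + y) : ℝ))) ≤
        (if x = 0 then (0:ℝ) else Real.exp (-(Q.ord v x : ℝ))) +
        (if y = 0 then (0:ℝ) else Real.exp (-(Q.ord v y : ℝ)))
      by_cases hx : x = 0
      · simp [hx]
      by_cases hy : y = 0
      · simp [hy]
      by_cases hxy : x + y = 0
      · simp only [hxy, if_true, hx, hy, if_false]
        positivity
      simp only [hx, hy, hxy, if_false]
      have h := Q.ord_add v x y (min (Q.ord v x) (Q.ord v y)) hx hy hxy (min_le_left _ _)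
        (min_le_right _ _)
      rcases min_choice (Q.ord v x) (Q.ord v y) with h' | h'
      · rw [h'] at h
        have : Real.exp (-(Q.ord v (x + y) : ℝ)) ≤ Real.exp (-(Q.ord v x : ℝ)) := by
          apply Real.exp_le_exp.mpr
          have : (Q.ord v x : ℝ) ≤ Q.ord v (x + y) := by exact_mod_cast h
          linarith
        have h2 := Real.exp_pos (-(Q.ord v y : ℝ))
        linarith
      · rw [h'] at h
        have : Real.exp (-(Q.ord v (x + y) : ℝ)) ≤ Real.exp (-(Q.ord v y : ℝ)) := by
          apply Real.exp_le_exp.mpr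
          have : (Q.ord v y : ℝ) ≤ Q.ord v (x + y) := by exact_mod_cast h
          linarith
        have h2 := Real.exp_pos (-(Q.ord v x : ℝ))
        linarith }

lemma absv_apply (Q : PlaceData k K) (v : Q.Pl) (x : K) (hx : x ≠ 0) :
    absv Q v x = Real.exp (-(Q.ord v x : ℝ)) := by
  classical
  show (if x = 0 then 0 else Real.exp (-(Q.ord v x : ℝ))) = _
  rw [if_neg hx]

lemma absv_alg (Q : PlaceData k K) (v : Q.Pl) (c : k) (hc : c ≠ 0) :
    absv Q v (algebraMap k K c) = 1 := by
  have h : algebraMap k K c ≠ 0 := (map_ne_zero _).mpr hc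
  rw [absv_apply Q v _ h, Q.ord_alg v c hc]
  simp

/-- A place extends to an algebraically closed ultrametric field. -/
theorem exists_ext (Q : PlaceData k K) (v : Q.Pl) (π : K) (hπ0 : π ≠ 0)
    (hπ : Q.ord v π ≠ 0) :
    ∃ (Ω : Type u) (_ : NormedField Ω) (_ : IsAlgClosed Ω) (_ : IsUltrametricDist Ω)
      (ι : K →+* Ω), ∀ x : K, x ≠ 0 → ‖ι x‖ = Real.exp (-(Q.ord v x : ℝ)) := by
  let a := absv Q v
  have hnat : ∀ n : ℕ, a (n : K) ≤ 1 := by
    intro n
    have h1 : ((n : ℕ) : K) = algebraMap k K (n : k) := by simp
    rw [h1]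
    by_cases hn : (n : k) = 0
    · rw [hn]
      simp
    · exact (absv_alg Q v (n : k) hn).le
  haveI hu : IsUltrametricDist a.Completion := by
    rw [isUltrametricDist_iff_forall_norm_natCast_le_one]
    intro n
    have h1 : ((n : ℕ) : a.Completion) = ((n : WithAbs a) : a.Completion) := by
      have := map_natCast (UniformSpace.Completion.coeRingHom (α := WithAbs a)) n
      exact this.symm
    rw [h1, UniformSpace.Completion.norm_coe]
    exact hnat n
  have hnt : ∃ x : a.Completion, 1 < ‖x‖ := by
    have hcoe : ∀ x : K, ‖((WithAbs.toAbs a x : WithAbs a) : a.Completion)‖ = a x := by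
      intro x
      rw [UniformSpace.Completion.norm_coe]
      rfl
    rcases lt_or_gt_of_ne hπ with h | h
    · refine ⟨((WithAbs.toAbs a π : WithAbs a) : a.Completion), ?_⟩
      rw [hcoe]
      show 1 < absv Q v π
      rw [absv_apply Q v π hπ0]
      apply Real.one_lt_exp_iff.mpr
      have : (Q.ord v π : ℝ) < 0 := by exact_mod_cast h
      linarith
    · refine ⟨((WithAbs.toAbs a π⁻¹ : WithAbs a) : a.Completion), ?_⟩
      rw [hcoe]
      show 1 < absv Q v π⁻¹
      rw [map_inv₀, absv_apply Q v π hπ0]
      rw [one_lt_inv₀ (Real.exp_pos _)]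
      apply Real.exp_lt_one_iff.mpr
      have : (0 : ℝ) < Q.ord v π := by exact_mod_cast h
      linarith
  letI : NontriviallyNormedField a.Completion :=
    { (inferInstance : NormedField a.Completion) with non_trivial := hnt }
  let Ω := AlgebraicClosure a.Completion
  letI hΩ : NormedField Ω := spectralNorm.normedField a.Completion Ω
  refine ⟨Ω, hΩ, inferInstance, ?_, ?_, ?_⟩
  · apply IsUltrametricDist.isUltrametricDist_of_isNonarchimedean_norm
    exact isNonarchimedean_spectralNorm (K := a.Completion) (L := Ω)
  · exact ((algebraMap a.Completion Ω).comp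
      (UniformSpace.Completion.coeRingHom (α := WithAbs a))).comp
        (WithAbs.equiv a).symm.toRingHom
  · intro x hx
    have h1 := spectralNorm_extends (K := a.Completion) (L := Ω)
      ((WithAbs.toAbs a x : WithAbs a) : a.Completion)
    have h2 : ‖((WithAbs.toAbs a x : WithAbs a) : a.Completion)‖ = a x := by
      rw [UniformSpace.Completion.norm_coe]
      rfl
    rw [h2] at h1
    rw [← absv_apply Q v x hx]
    exact h1

end Pool.Agent.Y706.SB.UG
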