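import Mathlib

/-!
# Ultrametric dynamics of a polynomial-like map on a disc
-/

namespace Pool.Agent.Y706.SB.UG

open Finset

section Ultra

variable {Ω : Type*} [NormedField Ω] [IsUltrametricDist Ω]

lemma tri (x y z : Ω) : ‖x - z‖ ≤ max ‖x - y‖ ‖y - z‖ := by
  have : x - z = (x - y) + (y - z) := by ring
  rw [this]
  exact IsUltrametricDist.norm_add_le_max _ _

lemma tri_ne {x y z : Ω} (h : ‖x - y‖ ≠ ‖y - z‖) : ‖x - z‖ = max ‖x - y‖ ‖y - z‖ := by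
  have : x - z = (x - y) + (y - z) := by ring
  rw [this]
  exact IsUltrametricDist.norm_add_eq_max_of_norm_ne_norm h

lemma tri_lt {x y z : Ω} (h : ‖x - y‖ < ‖y - z‖) : ‖x - z‖ = ‖y - z‖ := by
  rw [tri_ne h.ne, max_eq_right h.le]

lemma tri_le {x y z : Ω} {r : ℝ} (h1 : ‖x - y‖ ≤ r) (h2 : ‖y - z‖ ≤ r) : ‖x - z‖ ≤ r :=
  (tri x y z).trans (max_le h1 h2)

lemma tri_lt' {x y z : Ω} {r : ℝ} (h1 : ‖x - y‖ < r) (h2 : ‖y - z‖ < r) : ‖x - z‖ < r :=
  (tri x y z).trans_lt (max_lt h1 h2)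

omit [IsUltrametricDist Ω] in
lemma nsc (x y : Ω) : ‖x - y‖ = ‖y - x‖ := norm_sub_rev x y

end Ultra

/-- A polynomial-like system on an ultrametric field. -/
structure Sys (Ω : Type*) [NormedField Ω] where
  /-- the map -/
  F : Ω → Ω
  /-- the degree -/
  d : ℕ
  hd : 2 ≤ d
  /-- the size of the leading coefficient -/
  V : ℝ
  /-- the radius of the filled Julia disc -/
  R : ℝ
  hR : 0 < R
  /-- a point -/
  x₀ : Ω
  /-- a fixed point -/
  z₀ : Ω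
  hxz : ‖x₀ - z₀‖ = R
  ht : 0 < V + Real.log R
  back : ∀ z, ‖F z - x₀‖ ≤ R → ‖z - x₀‖ ≤ R
  orbx : ∀ n, ‖F^[n] x₀ - x₀‖ ≤ R
  fixz : F z₀ = z₀
  roots : ∀ b, ∃ ζ : Fin d → Ω, ∀ z, ‖F z - b‖ = Real.exp (((d : ℝ) - 1) * V) * ∏ l, ‖z - ζ l‖
  dense : ∀ a b : ℝ, 0 < a → a < b → ∃ w : Ω, a < ‖w‖ ∧ ‖w‖ < b
  /-- points with pairwise distance one -/
  gen : ℕ → Ω
  gen_le : ∀ i, ‖gen i‖ ≤ 1
  gen_sub : ∀ i j, i ≠ j → ‖gen i - gen j‖ = 1

namespace Sys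

variable {Ω : Type*} [NormedField Ω] (S : Sys Ω)

/-- membership in the disc -/
def D (z : Ω) : Prop := ‖z - S.x₀‖ ≤ S.R

/-- the excess -/
noncomputable def t : ℝ := S.V + Real.log S.R

/-- the size of the leading coefficient of the iterate -/
noncomputable def e (j : ℕ) : ℝ := Real.exp (((S.d : ℝ) ^ j - 1) * S.V)

lemma e_pos (j : ℕ) : 0 < S.e j := Real.exp_pos _

/-- A family of roots of `F^[j] - b`. -/
def IsRS (j : ℕ) (b : Ω) {I : Type} [Fintype I] (ζ : I → Ω) : Prop :=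
  Fintype.card I = S.d ^ j ∧ ∀ z, ‖S.F^[j] z - b‖ = S.e j * ∏ l, ‖z - ζ l‖

variable {S}
variable {j : ℕ} {b b' z : Ω} {I I' : Type} [Fintype I] [Fintype I']

lemma rs_root {ζ : I → Ω} (h : S.IsRS j b ζ) (l : I) : S.F^[j] (ζ l) = b := by
  have h1 := h.2 (ζ l)
  have h2 : ∏ l', ‖ζ l - ζ l'‖ = 0 := by
    apply Finset.prod_eq_zero (Finset.mem_univ l)
    simp
  rw [h2, mul_zero, norm_eq_zero, sub_eq_zero] at h1
  exact h1

lemma rs_zero (b : Ω) : S.IsRS 0 b (fun _ : Unit => b) := by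
  constructor
  · simp
  · intro z
    simp [Sys.e]

lemma rs_comp {m : ℕ} {w : I → Ω} {ζ : I → I' → Ω} (h : S.IsRS m b w)
    (h' : ∀ i, S.IsRS j (w i) (ζ i)) (hc : Fintype.card I' = S.d ^ j) :
    S.IsRS (m + j) b (fun q : I × I' => ζ q.1 q.2) := by
  refine ⟨?_, ?_⟩
  · rw [Fintype.card_prod, h.1, hc, pow_add]
  · intro z
    rw [Function.iterate_add_apply, h.2, Fintype.prod_prod_type]
    have h1 : ∀ i, ‖S.F^[j] z - w i‖ = S.e j * ∏ l, ‖z - ζ i l‖ := fun i => (h' i).2 z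
    simp_rw [h1]
    rw [Finset.prod_mul_distrib, Finset.prod_const, Finset.card_univ, h.1, ← mul_assoc]
    congr 1
    unfold Sys.e
    rw [← Real.exp_nat_mul, ← Real.exp_add]
    congr 1
    push_cast
    ring

lemma rs_equiv {ζ : I → Ω} (h : S.IsRS j b ζ) (e : I' ≃ I) : S.IsRS j b (ζ ∘ e) := by
  refine ⟨?_, ?_⟩
  · rw [Fintype.card_congr e, h.1]
  · intro z
    rw [h.2 z]
    congr 1
    exact (Equiv.prod_comp e fun l => ‖z - ζ l‖).symm

lemma rs_one (b : Ω) : ∃ ζ : Fin S.d → Ω, S.IsRS 1 b ζ := by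
  obtain ⟨ζ, h⟩ := S.roots b
  refine ⟨ζ, ?_, ?_⟩
  · simp
  · intro z
    rw [Function.iterate_one, h z]
    unfold Sys.e
    rw [pow_one]

lemma exists_rs (S : Sys Ω) (j : ℕ) : ∀ b : Ω, ∃ ζ : Fin (S.d ^ j) → Ω, S.IsRS j b ζ := by
  induction j with
  | zero =>
    intro b
    have e : Fin (S.d ^ 0) ≃ Unit := Fintype.equivOfCardEq (by simp)
    exact ⟨_, rs_equiv (rs_zero b) e⟩
  | succ j ih =>
    intro b
    obtain ⟨w, hw⟩ := rs_one (S := S) b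
    choose ζ hζ using ih
    have h := rs_comp hw (fun i => hζ (w i)) (by simp)
    have e : Fin (S.d ^ (j + 1)) ≃ Fin S.d × Fin (S.d ^ j) := Fintype.equivOfCardEq (by
      simp [pow_succ, mul_comm])
    rw [add_comm 1 j] at h
    exact ⟨_, rs_equiv h e⟩

lemma d_pos (S : Sys Ω) : 0 < S.d := by
  have := S.hd
  omega

lemma rs_nonempty {ζ : I → Ω} (h : S.IsRS j b ζ) : Nonempty I := by
  rw [← Fintype.card_pos_iff, h.1]
  exact pow_pos S.d_pos j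

section

variable [IsUltrametricDist Ω]

lemma D_sub {x y : Ω} (hx : S.D x) (hy : S.D y) : ‖x - y‖ ≤ S.R := by
  refine tri_le hx ?_
  rw [nsc]
  exact hy

lemma D_back (n : ℕ) : ∀ z, S.D (S.F^[n] z) → S.D z := by
  induction n with
  | zero => intro z h; exact h
  | succ n ih =>
    intro z h
    rw [Function.iterate_succ_apply] at h
    exact S.back z (ih _ h)

lemma D_x₀ : S.D S.x₀ := by
  unfold Sys.D
  rw [sub_self, norm_zero]
  exact S.hR.le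

lemma D_z₀ : S.D S.z₀ := by
  unfold Sys.D
  rw [nsc, S.hxz]

lemma rs_D {ζ : I → Ω} (h : S.IsRS j b ζ) (hb : S.D b) (l : I) : S.D (ζ l) := by
  apply D_back j
  rw [rs_root h l]
  exact hb

/-- One of the two marked points is far from a given point of the disc. -/
lemma exists_far (hz : S.D z) : ∃ p, S.D p ∧ (∀ n, S.D (S.F^[n] p)) ∧ ‖z - p‖ = S.R := by
  by_cases h : ‖z - S.x₀‖ = S.R
  · exact ⟨S.x₀, D_x₀, S.orbx, h⟩
  · refine ⟨S.z₀, D_z₀, ?_, ?_⟩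
    · intro n
      rw [Function.iterate_fixed S.fixz]
      exact D_z₀
    · have h1 : ‖z - S.x₀‖ < ‖S.x₀ - S.z₀‖ := by
        rw [S.hxz]
        exact lt_of_le_of_ne hz h
      rw [tri_lt h1, S.hxz]

omit [IsUltrametricDist Ω] in
lemma dense' (S : Sys Ω) (T : Finset ℝ) : ∀ a b : ℝ, 0 < a → a < b →
    ∃ w : Ω, a < ‖w‖ ∧ ‖w‖ < b ∧ ‖w‖ ∉ T := by
  classical
  induction T using Finset.induction_on with
  | empty =>
    intro a b ha hab
    obtain ⟨w, h1, h2⟩ := S.dense a b ha hab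
    exact ⟨w, h1, h2, by simp⟩
  | insert c T hc ih =>
    intro a b ha hab
    obtain ⟨w, h1, h2, h3⟩ := ih a b ha hab
    by_cases h : ‖w‖ = c
    · obtain ⟨w', h1', h2', h3'⟩ := ih a ‖w‖ ha h1
      refine ⟨w', h1', h2'.trans h2, ?_⟩
      rw [Finset.mem_insert, not_or]
      exact ⟨by rw [← h]; exact h2'.ne, h3'⟩
    · refine ⟨w, h1, h2, ?_⟩
      rw [Finset.mem_insert, not_or]
      exact ⟨h, h3⟩

/-- The basic comparison of two fibres. -/
lemma core {ζ : I → Ω} {ζ' : I' → Ω} (h : S.IsRS j b ζ) (h' : S.IsRS j b' ζ')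
    (hbb : ‖b - b'‖ ≤ S.R) (hz : ‖S.F^[j] z - b‖ = S.R) (l₀ : I) (s : ℝ) (hs : ‖z - ζ l₀‖ < s) :
    S.R < S.e j * ∏ l, max s ‖z - ζ' l‖ := by
  classical
  have hprod := h.2 z
  rw [hz] at hprod
  have hpos : ∀ l, 0 < ‖z - ζ l‖ := by
    intro l
    apply lt_of_le_of_ne (norm_nonneg _)
    intro h0
    have : ∏ l, ‖z - ζ l‖ = 0 := Finset.prod_eq_zero (Finset.mem_univ l) h0.symm
    rw [this, mul_zero] at hprod
    exact S.hR.ne' hprod
  obtain ⟨w, hw1, hw2, hw3⟩ := dense' S (Finset.univ.image (fun l => ‖z - ζ l‖) ∪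
    Finset.univ.image (fun l => ‖z - ζ' l‖)) _ _ (hpos l₀) hs
  rw [Finset.mem_union, not_or] at hw3
  simp only [Finset.mem_image, Finset.mem_univ, true_and, not_exists] at hw3
  have hzw : ‖(z + w) - z‖ = ‖w‖ := by rw [add_sub_cancel_left]
  have hm : ∀ x, ‖z - x‖ ≠ ‖w‖ → ‖(z + w) - x‖ = max ‖w‖ ‖z - x‖ := by
    intro x hx
    rw [tri_ne (y := z) (by rw [hzw]; exact hx.symm), hzw]
  have h1 : ‖S.F^[j] (z + w) - b‖ = S.e j * ∏ l, max ‖w‖ ‖z - ζ l‖ := by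
    rw [h.2]
    congr 1
    exact Finset.prod_congr rfl fun l _ => hm _ (hw3.1 l)
  have h2 : ‖S.F^[j] (z + w) - b'‖ = S.e j * ∏ l, max ‖w‖ ‖z - ζ' l‖ := by
    rw [h'.2]
    congr 1
    exact Finset.prod_congr rfl fun l _ => hm _ (hw3.2 l)
  have h3 : S.R < ‖S.F^[j] (z + w) - b‖ := by
    rw [h1, hprod]
    apply mul_lt_mul_of_pos_left _ (S.e_pos j)
    apply Finset.prod_lt_prod (fun l _ => hpos l) (fun l _ => le_max_right _ _)
    exact ⟨l₀, Finset.mem_univ _, lt_max_of_lt_left hw1⟩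
  have h4 : ‖S.F^[j] (z + w) - b'‖ = ‖S.F^[j] (z + w) - b‖ := by
    have h5 : ‖b' - b‖ < ‖b - S.F^[j] (z + w)‖ := by
      rw [nsc b' b, nsc b (S.F^[j] (z + w))]
      exact hbb.trans_lt h3
    rw [nsc _ b', tri_lt h5, nsc]
  calc S.R < ‖S.F^[j] (z + w) - b'‖ := by rw [h4]; exact h3
    _ = S.e j * ∏ l, max ‖w‖ ‖z - ζ' l‖ := h2
    _ ≤ S.e j * ∏ l, max s ‖z - ζ' l‖ := by
        apply mul_le_mul_of_nonneg_left _ (S.e_pos j).le
        apply Finset.prod_le_prod (fun l _ => le_max_of_le_left (norm_nonneg _))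
        intro l _
        exact max_le_max hw2.le le_rfl

/-- The distance to the closest preimage of a generic point. -/
noncomputable def r (S : Sys Ω) (j : ℕ) (z : Ω) : ℝ := by
  classical
  exact if h : S.D (S.F^[j] z) then
    (Finset.univ : Finset (Fin (S.d ^ j))).inf' (by
      haveI : Nonempty (Fin (S.d ^ j)) := ⟨⟨0, pow_pos S.d_pos j⟩⟩
      exact Finset.univ_nonempty)
      fun l => ‖z - Classical.choose (exists_rs S j (Classical.choose (exists_far h))) l‖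
  else 0

lemma r_spec (h : S.D (S.F^[j] z)) : ∃ (b : Ω) (ζ : Fin (S.d ^ j) → Ω) (l₀ : Fin (S.d ^ j)),
    S.D b ∧ ‖S.F^[j] z - b‖ = S.R ∧ S.IsRS j b ζ ∧ S.r j z = ‖z - ζ l₀‖ ∧
      ∀ l, S.r j z ≤ ‖z - ζ l‖ := by
  classical
  have hf := Classical.choose_spec (exists_far h)
  have hr := Classical.choose_spec (exists_rs S j (Classical.choose (exists_far h)))
  haveI : Nonempty (Fin (S.d ^ j)) := ⟨⟨0, pow_pos S.d_pos j⟩⟩
  obtain ⟨l₀, _, hl₀⟩ := Finset.exists_mem_eq_inf' (Finset.univ_nonempty (α := Fin (S.d ^ j)))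
    (fun l => ‖z - Classical.choose (exists_rs S j (Classical.choose (exists_far h))) l‖)
  have hrr : S.r j z = (Finset.univ : Finset (Fin (S.d ^ j))).inf' Finset.univ_nonempty
      (fun l => ‖z - Classical.choose (exists_rs S j (Classical.choose (exists_far h))) l‖) := by
    unfold Sys.r
    rw [dif_pos h]
  refine ⟨_, _, l₀, hf.1, hf.2.2, hr, ?_, ?_⟩
  · rw [hrr, hl₀]
  · intro l
    rw [hrr]
    exact Finset.inf'_le _ (Finset.mem_univ l)

lemma rs_pos {ζ : I → Ω} (h : S.IsRS j b ζ) (hz : 0 < ‖S.F^[j] z - b‖) (l : I) :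
    0 < ‖z - ζ l‖ := by
  apply lt_of_le_of_ne (norm_nonneg _)
  intro h0
  have : ∏ l, ‖z - ζ l‖ = 0 := Finset.prod_eq_zero (Finset.mem_univ l) h0.symm
  rw [h.2 z, this, mul_zero] at hz
  exact lt_irrefl _ hz

lemma r_pos (h : S.D (S.F^[j] z)) : 0 < S.r j z := by
  obtain ⟨b, ζ, l₀, _, hb, hζ, hr, _⟩ := r_spec h
  rw [hr]
  exact rs_pos hζ (by rw [hb]; exact S.hR) l₀

/-- Every fibre comes at least as close as a generic fibre. -/
lemma r_near (h : S.D (S.F^[j] z)) (hb' : S.D b') {ζ' : I' → Ω} (h' : S.IsRS j b' ζ') :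
    ∃ l, ‖z - ζ' l‖ ≤ S.r j z := by
  classical
  obtain ⟨b, ζ, l₀, hbD, hb, hζ, hr, hmin⟩ := r_spec h
  by_contra hcon
  push Not at hcon
  haveI := rs_nonempty h'
  obtain ⟨l₁, _, hl₁⟩ := Finset.exists_min_image (Finset.univ : Finset I')
    (fun l => ‖z - ζ' l‖) Finset.univ_nonempty
  have hc := core hζ h' (D_sub hbD hb') hb l₀ ‖z - ζ' l₁‖ (by rw [← hr]; exact hcon l₁)
  have h1 : ∏ l, max ‖z - ζ' l₁‖ ‖z - ζ' l‖ = ∏ l, ‖z - ζ' l‖ :=
    Finset.prod_congr rfl fun l _ => max_eq_right (hl₁ l (Finset.mem_univ l))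
  rw [h1, ← h'.2 z] at hc
  exact absurd (D_sub h hb') (not_le.mpr hc)

/-- A generic fibre does not come closer than the generic distance. -/
lemma r_far (h : S.D (S.F^[j] z)) {ζ : I → Ω} (hζ : S.IsRS j b ζ) (hbD : S.D b)
    (hb : ‖S.F^[j] z - b‖ = S.R) (l : I) : S.r j z ≤ ‖z - ζ l‖ := by
  obtain ⟨b', ζ', l₀, hbD', hb', hζ', hr', hmin'⟩ := r_spec h
  by_contra hcon
  push Not at hcon
  have hc := core hζ hζ' (D_sub hbD hbD') hb l _ hcon
  have h1 : ∏ l, max (S.r j z) ‖z - ζ' l‖ = ∏ l, ‖z - ζ' l‖ :=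
    Finset.prod_congr rfl fun l _ => max_eq_right (hmin' l)
  rw [h1, ← hζ'.2 z, hb'] at hc
  exact lt_irrefl _ hc

lemma r_eq (h : S.D (S.F^[j] z)) {ζ : I → Ω} (hζ : S.IsRS j b ζ) (hbD : S.D b)
    (hb : ‖S.F^[j] z - b‖ = S.R) : ∃ l, ‖z - ζ l‖ = S.r j z := by
  obtain ⟨l, hl⟩ := r_near h hbD hζ
  exact ⟨l, le_antisymm hl (r_far h hζ hbD hb l)⟩

/-- the logarithmic closeness -/
noncomputable def h (S : Sys Ω) (j : ℕ) (z : Ω) : ℝ := - Real.log (S.r j z)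

end

end Sys

end Pool.Agent.Y706.SB.UG
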