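import Pool.Agent.Y706.SB.UG.A2
import Pool.Agent.Y706.SB.UG.A4

/-!
# The energy of a finite invariant set against generic fibres
-/

namespace Pool.Agent.Y706.SB.UG

open Finset

/-- The truncated logarithmic kernel. -/
noncomputable def ker {Ω : Type*} [NormedField Ω] (T : ℝ) (z w : Ω) : ℝ := by
  classical
  exact if z = w then T else min (-Real.log ‖z - w‖) T

section

variable {Ω : Type*} [NormedField Ω]

lemma ker_self (T : ℝ) (z : Ω) : ker T z z = T := by
  unfold ker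
  rw [if_pos rfl]

lemma ker_ne {T : ℝ} {z w : Ω} (h : z ≠ w) : ker T z w = min (-Real.log ‖z - w‖) T := by
  unfold ker
  rw [if_neg h]

lemma ker_symm (T : ℝ) (z w : Ω) : ker T z w = ker T w z := by
  by_cases h : z = w
  · rw [h]
  · rw [ker_ne h, ker_ne (Ne.symm h), nsc]

lemma ker_le (T : ℝ) (z w : Ω) : ker T z w ≤ T := by
  by_cases h : z = w
  · rw [h, ker_self]
  · rw [ker_ne h]
    exact min_le_right _ _

lemma ker_ultra [IsUltrametricDist Ω] (T : ℝ) (z w u : Ω) :
    min (ker T z u) (ker T u w) ≤ ker T z w := by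
  by_cases h : z = w
  · subst h
    rw [ker_self]
    exact min_le_of_left_le (ker_le _ _ _)
  by_cases h1 : z = u
  · subst h1
    exact min_le_right _ _
  by_cases h2 : u = w
  · subst h2
    exact min_le_left _ _
  rw [ker_ne h, ker_ne h1, ker_ne h2]
  apply le_min
  · have h3 : 0 < ‖z - w‖ := norm_pos_iff.mpr (sub_ne_zero.mpr h)
    have h4 := tri z u w
    rcases le_total ‖z - u‖ ‖u - w‖ with h5 | h5
    · rw [max_eq_right h5] at h4
      apply min_le_of_right_le
      apply min_le_of_left_le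
      exact neg_le_neg (Real.log_le_log h3 h4)
    · rw [max_eq_left h5] at h4
      apply min_le_of_left_le
      apply min_le_of_left_le
      exact neg_le_neg (Real.log_le_log h3 h4)
  · apply min_le_of_left_le
    exact min_le_right _ _

lemma ker_le_log {T : ℝ} {z w : Ω} (h : z ≠ w) : ker T z w ≤ -Real.log ‖z - w‖ := by
  rw [ker_ne h]
  exact min_le_left _ _

end

namespace Sys

variable {Ω : Type*} [NormedField Ω] [IsUltrametricDist Ω] {S : Sys Ω}
variable {j k : ℕ} {b b' z : Ω} {I : Type} [Fintype I] {ι : Type*} [Fintype ι]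

lemma ker_ge {T : ℝ} {z w : Ω} (hz : S.D z) (hw : S.D w) (hT : -Real.log S.R ≤ T) :
    -Real.log S.R ≤ ker T z w := by
  by_cases h : z = w
  · rw [h, ker_self]
    exact hT
  · rw [ker_ne h]
    apply le_min _ hT
    exact neg_le_neg (Real.log_le_log (norm_pos_iff.mpr (sub_ne_zero.mpr h)) (D_sub hz hw))

lemma sum_ker {ζ : I → Ω} (hζ : S.IsRS k b ζ) (hbD : S.D b) (hzD : S.D z)
    (hb : ‖S.F^[k] z - b‖ = S.R) {T : ℝ} (hT : S.V + ((S.d : ℝ) ^ k - 2) * S.t ≤ T) :
    ∑ l, ker T z (ζ l) = (S.d : ℝ) ^ k * S.V - S.t := by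
  have h1 := sum_log hζ (z := z) (by rw [hb]; exact S.hR)
  rw [hb] at h1
  have h2 : ∀ l, ker T z (ζ l) = -Real.log ‖z - ζ l‖ := by
    intro l
    have hpos := rs_pos hζ (z := z) (by rw [hb]; exact S.hR) l
    have hne : z ≠ ζ l := by
      intro h
      rw [h, sub_self, norm_zero] at hpos
      exact lt_irrefl _ hpos
    rw [ker_ne hne]
    apply min_eq_left
    exact (log_le_of_generic hζ hbD hzD hb l).trans hT
  simp_rw [h2]
  rw [h1]
  unfold Sys.t
  ring

/-- the pairwise logarithmic energy of a family of points -/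
noncomputable def pairE (p : ι → Ω) : ℝ := by
  classical
  exact ∑ i, ∑ i', if i = i' then 0 else -Real.log ‖p i - p i'‖

/-- the signed weights -/
noncomputable def wgt (S : Sys Ω) (ι : Type*) [Fintype ι] (k M : ℕ) (I : Type) :
    ι ⊕ (Fin M × I) → ℝ :=
  Sum.elim (fun _ => 1 / (Fintype.card ι : ℝ)) (fun _ => -(1 / (M * (S.d : ℝ) ^ k)))

lemma wgt_sum [Nonempty ι] {M : ℕ} (hM : 0 < M) (hI : Fintype.card I = S.d ^ k) :
    ∑ q, S.wgt ι k M I q = 0 := by
  unfold Sys.wgt
  have hN : (0 : ℝ) < Fintype.card ι := by exact_mod_cast Fintype.card_pos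
  have hM' : (0 : ℝ) < M := by exact_mod_cast hM
  have hD := S.dpow_pos k
  rw [Fintype.sum_sum_type]
  simp only [Sum.elim_inl, Sum.elim_inr, Finset.sum_const, Finset.card_univ, nsmul_eq_mul,
    Fintype.card_prod, Fintype.card_fin, hI]
  push_cast
  field_simp
  ring

lemma energy_le [Nonempty ι] {M : ℕ} (hM : 0 < M) (p : ι → Ω) (hp : Function.Injective p)
    (hpD : ∀ i, S.D (p i)) (β : Fin M → Ω) (hβD : ∀ m, S.D (β m))
    (hgen : ∀ i m, ‖S.F^[k] (p i) - β m‖ = S.R)
    (hββ : ∀ m m', m ≠ m' → ‖β m - β m'‖ = S.R) (ζ : Fin M → I → Ω)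
    (hζ : ∀ m, S.IsRS k (β m) (ζ m)) {T : ℝ} (hT : S.V + ((S.d : ℝ) ^ k - 2) * S.t ≤ T) :
    ∑ q, ∑ q', S.wgt ι k M I q * S.wgt ι k M I q' *
        ker T (Sum.elim p (fun q : Fin M × I => ζ q.1 q.2) q)
          (Sum.elim p (fun q : Fin M × I => ζ q.1 q.2) q') ≤
      pairE p / (Fintype.card ι : ℝ) ^ 2 + T / Fintype.card ι -
        (S.V - S.t / (S.d : ℝ) ^ k) + (T - (S.V - S.t / (S.d : ℝ) ^ k)) / M := by
  classical
  have hN : (0 : ℝ) < Fintype.card ι := by exact_mod_cast Fintype.card_pos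
  have hM' : (0 : ℝ) < M := by exact_mod_cast hM
  have hD := S.dpow_pos k
  have hI : Fintype.card I = S.d ^ k := (hζ ⟨0, hM⟩).1
  set N : ℝ := (Fintype.card ι : ℝ) with hNdef
  set Dk : ℝ := (S.d : ℝ) ^ k with hDk
  set κD : ℝ := Dk * S.V - S.t with hκ
  -- row sums
  have hrow1 : ∀ i, ∑ q : Fin M × I, ker T (p i) (ζ q.1 q.2) = M * κD := by
    intro i
    rw [Fintype.sum_prod_type]
    have : ∀ m : Fin M, ∑ l, ker T (p i) (ζ m l) = κD := fun m =>
      sum_ker (hζ m) (hβD m) (hpD i) (hgen i m) hT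
    simp_rw [this]
    simp
  have hrow2 : ∀ q : Fin M × I, ∑ q' : Fin M × I, ker T (ζ q.1 q.2) (ζ q'.1 q'.2) ≤
      Dk * T + (M - 1) * κD := by
    intro q
    rw [Fintype.sum_prod_type, ← Finset.add_sum_erase _ _ (Finset.mem_univ q.1)]
    apply add_le_add
    · calc ∑ l, ker T (ζ q.1 q.2) (ζ q.1 l) ≤ ∑ _l : I, T :=
            Finset.sum_le_sum fun l _ => ker_le _ _ _
        _ = Dk * T := by
            rw [Finset.sum_const, Finset.card_univ, hI, nsmul_eq_mul, Nat.cast_pow]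
    · apply le_of_eq
      have : ∀ m ∈ Finset.univ.erase q.1, ∑ l, ker T (ζ q.1 q.2) (ζ m l) = κD := by
        intro m hm
        apply sum_ker (hζ m) (hβD m) (rs_D (hζ q.1) (hβD q.1) q.2) _ hT
        rw [rs_root (hζ q.1) q.2]
        exact hββ _ _ (Finset.ne_of_mem_erase hm).symm
      rw [Finset.sum_congr rfl this, Finset.sum_const,
        Finset.card_erase_of_mem (Finset.mem_univ _), Finset.card_univ, Fintype.card_fin,
        nsmul_eq_mul, Nat.cast_sub hM, Nat.cast_one]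
  have hA : ∑ i, ∑ i', ker T (p i) (p i') ≤ pairE p + N * T := by
    unfold Sys.pairE
    have h1 : N * T = ∑ i : ι, T := by
      rw [Finset.sum_const, Finset.card_univ, nsmul_eq_mul]
    rw [h1, ← Finset.sum_add_distrib]
    apply Finset.sum_le_sum
    intro i _
    rw [← Finset.add_sum_erase _ _ (Finset.mem_univ i),
      ← Finset.add_sum_erase _ (fun i' => if i = i' then (0 : ℝ) else -Real.log ‖p i - p i'‖)
        (Finset.mem_univ i), ker_self, if_pos rfl, zero_add, add_comm]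
    apply add_le_add _ le_rfl
    apply Finset.sum_le_sum
    intro i' hi'
    have hne : i ≠ i' := (Finset.ne_of_mem_erase hi').symm
    rw [if_neg hne]
    exact ker_le_log (fun h => hne (hp h))
  have hexp : ∑ q, ∑ q', S.wgt ι k M I q * S.wgt ι k M I q' *
        ker T (Sum.elim p (fun q : Fin M × I => ζ q.1 q.2) q)
          (Sum.elim p (fun q : Fin M × I => ζ q.1 q.2) q') =
      1 / N ^ 2 * ∑ i, ∑ i', ker T (p i) (p i')
        - 2 * (1 / (N * (M * Dk))) * ∑ i, ∑ q : Fin M × I, ker T (p i) (ζ q.1 q.2)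
        + 1 / (M * Dk) ^ 2 * ∑ q : Fin M × I, ∑ q' : Fin M × I,
            ker T (ζ q.1 q.2) (ζ q'.1 q'.2) := by
    unfold Sys.wgt
    rw [Fintype.sum_sum_type]
    simp only [Fintype.sum_sum_type, Sum.elim_inl, Sum.elim_inr, Finset.sum_add_distrib]
    have hs : ∑ q : Fin M × I, ∑ i, ker T (ζ q.1 q.2) (p i) =
        ∑ i, ∑ q : Fin M × I, ker T (p i) (ζ q.1 q.2) := by
      rw [Finset.sum_comm]
      apply Finset.sum_congr rfl
      intro i _
      apply Finset.sum_congr rfl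
      intro q _
      exact ker_symm _ _ _
    simp only [← Finset.mul_sum]
    rw [hs, ← hNdef, ← hDk]
    have hN0 := hN.ne'
    have hM0 := hM'.ne'
    have hD0 := hD.ne'
    field_simp
    ring
  rw [hexp]
  have hB : ∑ i, ∑ q : Fin M × I, ker T (p i) (ζ q.1 q.2) = N * (M * κD) := by
    simp_rw [hrow1]
    rw [Finset.sum_const, Finset.card_univ, nsmul_eq_mul]
  have hC : ∑ q : Fin M × I, ∑ q' : Fin M × I, ker T (ζ q.1 q.2) (ζ q'.1 q'.2) ≤
      (M * Dk) * (Dk * T + (M - 1) * κD) := by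
    calc _ ≤ ∑ _q : Fin M × I, (Dk * T + (M - 1) * κD) :=
          Finset.sum_le_sum fun q _ => hrow2 q
      _ = (M * Dk) * (Dk * T + (M - 1) * κD) := by
          rw [Finset.sum_const, Finset.card_univ, Fintype.card_prod, Fintype.card_fin, hI,
            nsmul_eq_mul]
          push_cast
          ring
  rw [hB]
  have h1 : 1 / N ^ 2 * ∑ i, ∑ i', ker T (p i) (p i') ≤ 1 / N ^ 2 * (pairE p + N * T) :=
    mul_le_mul_of_nonneg_left hA (by positivity)
  have h2 := mul_le_mul_of_nonneg_left hC (show (0 : ℝ) ≤ 1 / (M * Dk) ^ 2 by positivity)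
  have h3 : 1 / N ^ 2 * (pairE p + N * T) = pairE p / N ^ 2 + T / N := by
    have hN0 := hN.ne'
    field_simp
  have h4 : 2 * (1 / (N * (M * Dk))) * (N * (M * κD)) = 2 * (S.V - S.t / Dk) := by
    rw [hκ]
    have hN0 := hN.ne'
    have hM0 := hM'.ne'
    have hD0 := hD.ne'
    field_simp
  have h5 : 1 / (M * Dk) ^ 2 * ((M * Dk) * (Dk * T + (M - 1) * κD)) =
      (S.V - S.t / Dk) + (T - (S.V - S.t / Dk)) / M := by
    rw [hκ]
    have hM0 := hM'.ne'
    have hD0 := hD.ne'
    field_simp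
    ring
  rw [h3] at h1
  rw [h5] at h2
  rw [h4]
  linarith

/-- an Archimedean limit -/
lemma limit_le {X Y Z : ℝ} (h : ∀ M : ℕ, 0 < M → X ≤ Y + Z / M) : X ≤ Y := by
  by_contra hcon
  push Not at hcon
  obtain ⟨M, hM⟩ := exists_nat_gt (|Z| / (X - Y))
  have hpos : 0 < X - Y := by linarith
  have hM0 : (0 : ℝ) ≤ |Z| / (X - Y) := by positivity
  have hMpos : (0 : ℝ) < M := lt_of_le_of_lt hM0 hM
  have h1 := h M (by exact_mod_cast hMpos)
  rw [div_lt_iff₀ hpos] at hM
  have h2 : Z / M < X - Y := by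
    rw [div_lt_iff₀ hMpos]
    calc Z ≤ |Z| := le_abs_self _
      _ < M * (X - Y) := hM
      _ = (X - Y) * M := by ring
  linarith

lemma orb_mem {p : ι → Ω} (hst : ∀ i, ∃ i', S.F (p i) = p i') (n : ℕ) :
    ∀ i, ∃ i', S.F^[n] (p i) = p i' := by
  induction n with
  | zero => intro i; exact ⟨i, rfl⟩
  | succ n ih =>
    intro i
    obtain ⟨i', h⟩ := ih i
    obtain ⟨i'', h'⟩ := hst i'
    exact ⟨i'', by rw [Function.iterate_succ_apply', h, h']⟩

/-- The energy of a finite invariant set. -/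
lemma pairE_ge [Nonempty ι] (p : ι → Ω) (hp : Function.Injective p) (hpD : ∀ i, S.D (p i))
    (hst : ∀ i, ∃ i', S.F (p i) = p i') (k : ℕ) :
    S.V - S.t / (S.d : ℝ) ^ k - (S.V + (S.d : ℝ) ^ k * S.t) / Fintype.card ι ≤
      pairE p / (Fintype.card ι : ℝ) ^ 2 := by
  classical
  set T : ℝ := S.V + (S.d : ℝ) ^ k * S.t with hTdef
  have ht := S.t_pos
  have hT : S.V + ((S.d : ℝ) ^ k - 2) * S.t ≤ T := by
    rw [hTdef]
    nlinarith
  have hTR : -Real.log S.R ≤ T := by
    rw [hTdef]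
    have := S.dpow_pos k
    have h2 : -Real.log S.R = S.V - S.t := by unfold Sys.t; ring
    rw [h2]
    have : 0 < (S.d : ℝ) ^ k * S.t := mul_pos this ht
    linarith
  obtain ⟨β, hβD, hβT, hββ⟩ := exists_generic S (Finset.univ.image p) (by
    intro s hs
    simp only [Finset.mem_image, Finset.mem_univ, true_and] at hs
    obtain ⟨i, rfl⟩ := hs
    exact hpD i)
  have hkey : ∀ M : ℕ, 0 < M → (0 : ℝ) ≤ (pairE p / (Fintype.card ι : ℝ) ^ 2 +
      T / Fintype.card ι - (S.V - S.t / (S.d : ℝ) ^ k)) + (T - (S.V - S.t / (S.d : ℝ) ^ k)) / M := by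
    intro M hM
    choose ζ hζ using fun m : Fin M => exists_rs S k (β m)
    have hgen : ∀ i (m : Fin M), ‖S.F^[k] (p i) - β m‖ = S.R := by
      intro i m
      obtain ⟨i', hi'⟩ := orb_mem hst k i
      rw [hi', nsc]
      exact hβT m _ (Finset.mem_image_of_mem _ (Finset.mem_univ _))
    have h1 := energy_le hM p hp hpD (fun m : Fin M => β m) (fun m => hβD m) hgen
      (fun m m' h => hββ _ _ (fun h' => h (Fin.ext h'))) ζ hζ hT
    have hptD : ∀ q, S.D (Sum.elim p (fun q : Fin M × Fin (S.d ^ k) => ζ q.1 q.2) q) := by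
      rintro (i | q)
      · exact hpD i
      · exact rs_D (hζ q.1) (hβD _) q.2
    have h2 := psd_zero (fun q q' => ker T
      (Sum.elim p (fun q : Fin M × Fin (S.d ^ k) => ζ q.1 q.2) q)
      (Sum.elim p (fun q : Fin M × Fin (S.d ^ k) => ζ q.1 q.2) q'))
      (S.wgt ι k M (Fin (S.d ^ k))) (-Real.log S.R) (wgt_sum hM (by simp))
      (fun _ _ => ker_symm _ _ _) (fun _ _ _ => ker_ultra _ _ _ _)
      (fun q q' => ker_ge (hptD q) (hptD q') hTR)
    linarith
  have := limit_le hkey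
  linarith

end Sys

end Pool.Agent.Y706.SB.UG
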