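import Pool.Agent.Y706.SB.UG.A5

/-!
# Excess of energy at irregular points; colourings
-/

namespace Pool.Agent.Y706.SB.UG

open Finset

namespace Sys

variable {Ω : Type*} [NormedField Ω] [IsUltrametricDist Ω] {S : Sys Ω}
variable {j k : ℕ} {b b' z : Ω} {I : Type} [Fintype I] {ι : Type*} [Fintype ι]

/-- The energy of a finite invariant set with an irregular point. -/
lemma pairE_ge_irr [Nonempty ι] (p : ι → Ω) (hp : Function.Injective p) (hpD : ∀ i, S.D (p i))
    (hst : ∀ i, ∃ i', S.F (p i) = p i') (k j : ℕ) (hjk : j + 1 ≤ k) (i₀ : ι)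
    (hirr : ∀ i, ‖p i - p i₀‖ ≠ S.r j (p i₀)) :
    S.V - S.t / (S.d : ℝ) ^ k + S.t / ((S.d : ℝ) ^ j * ((S.d : ℝ) ^ (j + 1)) ^ 2) -
      (S.V + (S.d : ℝ) ^ k * S.t) / Fintype.card ι ≤
      pairE p / (Fintype.card ι : ℝ) ^ 2 := by
  classical
  set T : ℝ := S.V + (S.d : ℝ) ^ k * S.t with hTdef
  have ht := S.t_pos
  have hT : S.V + ((S.d : ℝ) ^ k - 2) * S.t ≤ T := by
    rw [hTdef]
    nlinarith
  have hTR : -Real.log S.R ≤ T := by
    rw [hTdef]
    have := S.dpow_pos k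
    have h2 : -Real.log S.R = S.V - S.t := by unfold Sys.t; ring
    rw [h2]
    have : 0 < (S.d : ℝ) ^ k * S.t := mul_pos this ht
    linarith
  obtain ⟨β, hβD, hβT, hββ⟩ := exists_generic S (Finset.univ.image p) (by
    intro s hs
    simp only [Finset.mem_image, Finset.mem_univ, true_and] at hs
    obtain ⟨i, rfl⟩ := hs
    exact hpD i)
  -- the test point
  set x := p i₀ with hx
  have hwD : S.D (S.F^[j] x) := by
    obtain ⟨i', hi'⟩ := orb_mem hst j i₀
    rw [hx, hi']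
    exact hpD i'
  obtain ⟨ps, hpsD, hpsn, hps⟩ := exists_far hwD
  obtain ⟨ζ₀, hζ₀⟩ := exists_rs S j ps
  obtain ⟨l₀, hl₀⟩ := r_eq hwD hζ₀ hpsD hps
  set a₀ := ζ₀ l₀ with ha₀
  have ha₀D : S.D a₀ := rs_D hζ₀ hpsD l₀
  have hFa : S.F^[j] a₀ = ps := rs_root hζ₀ l₀
  have hFaD : S.D (S.F^[j] a₀) := by rw [hFa]; exact hpsD
  have hFaD' : S.D (S.F^[j + 1] a₀) := by
    rw [Function.iterate_succ_apply', hFa]
    exact hpsn 1
  have hrr : S.r j a₀ ≤ S.r j x := by
    obtain ⟨b, ζ, l₁, hbD, hb, hζ, hr, hmin⟩ := r_spec hFaD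
    obtain ⟨l', hl'⟩ := r_near hwD hbD hζ
    have h1 : ‖a₀ - ζ l'‖ ≤ S.r j x := by
      refine tri_le (y := x) ?_ hl'
      rw [nsc, hl₀]
    exact (hmin l').trans h1
  have hh : S.h j x ≤ S.h j a₀ := by
    unfold Sys.h
    exact neg_le_neg (Real.log_le_log (r_pos hFaD) hrr)
  set s₁ := S.h j x with hs₁
  set s₂ := S.h (j + 1) a₀ with hs₂
  have hs12 : s₁ + S.t / (S.d : ℝ) ^ j ≤ s₂ := by
    have := h_succ hFaD hFaD'
    linarith
  have htj : 0 < S.t / (S.d : ℝ) ^ j := div_pos ht (S.dpow_pos j)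
  have hs12' : s₁ < s₂ := by linarith
  have hs2T : s₂ ≤ T := by
    have h1 := h_le ha₀D hFaD'
    have h2 : (S.d : ℝ) ^ (j + 1) ≤ (S.d : ℝ) ^ k :=
      pow_le_pow_right₀ (by linarith [S.dR]) hjk
    rw [hTdef]
    have h3 : ((S.d : ℝ) ^ (j + 1) - 2) * S.t ≤ (S.d : ℝ) ^ k * S.t := by
      apply mul_le_mul_of_nonneg_right _ ht.le
      linarith
    linarith
  have hDj := S.dpow_pos (j + 1)
  have hDk := S.dpow_pos k
  have hkey : ∀ M : ℕ, 0 < M → (s₂ - s₁) / ((S.d : ℝ) ^ (j + 1)) ^ 2 ≤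
      (pairE p / (Fintype.card ι : ℝ) ^ 2 +
      T / Fintype.card ι - (S.V - S.t / (S.d : ℝ) ^ k)) + (T - (S.V - S.t / (S.d : ℝ) ^ k)) / M := by
    intro M hM
    choose w hw using fun m : Fin M => exists_rs S (k - (j + 1)) (β m)
    choose η hη using fun c : Ω => exists_rs S (j + 1) c
    set ζ : Fin M → (Fin (S.d ^ (k - (j + 1))) × Fin (S.d ^ (j + 1))) → Ω :=
      fun m q => η (w m q.1) q.2 with hζdef
    have hζ : ∀ m : Fin M, S.IsRS k (β m) (ζ m) := by
      intro m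
      have h1 := rs_comp (hw m) (fun i => hη (w m i)) (by simp)
      rw [Nat.sub_add_cancel hjk] at h1
      exact h1
    have hgen : ∀ i (m : Fin M), ‖S.F^[k] (p i) - β m‖ = S.R := by
      intro i m
      obtain ⟨i', hi'⟩ := orb_mem hst k i
      rw [hi', nsc]
      exact hβT m _ (Finset.mem_image_of_mem _ (Finset.mem_univ _))
    have h1 := energy_le hM p hp hpD (fun m : Fin M => β m) (fun m => hβD m) hgen
      (fun m m' h => hββ _ _ (fun h' => h (Fin.ext h'))) ζ hζ hT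
    set pt : ι ⊕ (Fin M × (Fin (S.d ^ (k - (j + 1))) × Fin (S.d ^ (j + 1)))) → Ω :=
      Sum.elim p (fun q => ζ q.1 q.2) with hpt
    have hptD : ∀ q, S.D (pt q) := by
      rintro (i | q)
      · exact hpD i
      · exact rs_D (hζ q.1) (hβD _) q.2
    have hptD' : ∀ q : Option (ι ⊕ (Fin M × (Fin (S.d ^ (k - (j + 1))) × Fin (S.d ^ (j + 1))))),
        S.D (q.elim a₀ pt) := by
      rintro (_ | q)
      · exact ha₀D
      · exact hptD q
    have h2 := energy_test (fun q q' => ker T (q.elim a₀ pt) (q'.elim a₀ pt))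
      (S.wgt ι k M (Fin (S.d ^ (k - (j + 1))) × Fin (S.d ^ (j + 1)))) (-Real.log S.R) s₁ s₂ hs12'
      (wgt_sum hM (hζ ⟨0, hM⟩).1)
      (fun _ _ => ker_symm _ _ _) (fun _ _ _ => ker_ultra _ _ _ _)
      (fun q q' => ker_ge (hptD' q) (hptD' q') hTR)
      (by simp only [Option.elim_none, ker_self]; exact hs2T)
    simp only [Option.elim_some, Option.elim_none] at h2
    set U := ∑ q, S.wgt ι k M (Fin (S.d ^ (k - (j + 1))) × Fin (S.d ^ (j + 1))) q *
      win s₁ s₂ (ker T (pt q) a₀) with hU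
    have hM' : (0 : ℝ) < M := by exact_mod_cast hM
    have hU1 : U ≤ -((s₂ - s₁) / (S.d : ℝ) ^ (j + 1)) := by
      rw [hU, Fintype.sum_sum_type]
      have hfirst : ∀ i, win s₁ s₂ (ker T (p i) a₀) = 0 := by
        intro i
        apply win_bot
        have hle : S.r j x ≤ ‖p i - a₀‖ := by
          rcases lt_or_gt_of_ne (hirr i) with h3 | h3
          · have h4 : ‖p i - x‖ < ‖x - a₀‖ := by rw [hl₀]; exact h3
            rw [tri_lt h4, hl₀]
          · have h4 : ‖a₀ - x‖ < ‖x - p i‖ := by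
              rw [nsc a₀ x, hl₀, nsc x]
              exact h3
            rw [nsc, tri_lt h4, nsc]
            exact h3.le
        have hne : p i ≠ a₀ := by
          intro h4
          rw [h4, sub_self, norm_zero] at hle
          exact absurd (r_pos hwD) (not_lt.mpr hle)
        refine (ker_le_log hne).trans ?_
        rw [hs₁]
        unfold Sys.h
        exact neg_le_neg (Real.log_le_log (r_pos hwD) hle)
      have hsecond : ∀ (m : Fin M) (q₁ : Fin (S.d ^ (k - (j + 1)))),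
          s₂ - s₁ ≤ ∑ l, win s₁ s₂ (ker T (η (w m q₁) l) a₀) := by
        intro m q₁
        have hwDm : S.D (w m q₁) := rs_D (hw m) (hβD _) q₁
        obtain ⟨l, hl⟩ := r_near hFaD' hwDm (hη (w m q₁))
        have h3 : win s₁ s₂ (ker T (η (w m q₁) l) a₀) = s₂ - s₁ := by
          apply win_top _ _ _ hs12'.le
          by_cases h4 : η (w m q₁) l = a₀
          · rw [h4, ker_self]
            exact hs2T
          · rw [ker_ne h4]
            apply le_min _ hs2T
            rw [hs₂]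
            unfold Sys.h
            apply neg_le_neg
            apply Real.log_le_log (norm_pos_iff.mpr (sub_ne_zero.mpr h4))
            rw [nsc]
            exact hl
        rw [← h3]
        exact Finset.single_le_sum (f := fun l => win s₁ s₂ (ker T (η (w m q₁) l) a₀))
          (fun l _ => win_nonneg _ _ _) (Finset.mem_univ l)
      have hs1 : ∑ i, S.wgt ι k M (Fin (S.d ^ (k - (j + 1))) × Fin (S.d ^ (j + 1))) (Sum.inl i) *
          win s₁ s₂ (ker T (pt (Sum.inl i)) a₀) = 0 := by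
        apply Finset.sum_eq_zero
        intro i _
        rw [hpt, Sum.elim_inl, hfirst i, mul_zero]
      rw [hs1, zero_add]
      unfold Sys.wgt
      simp only [hpt, Sum.elim_inr, hζdef]
      rw [← Finset.mul_sum]
      have hs2 : (M : ℝ) * (S.d : ℝ) ^ (k - (j + 1)) * (s₂ - s₁) ≤
          ∑ q : Fin M × (Fin (S.d ^ (k - (j + 1))) × Fin (S.d ^ (j + 1))),
            win s₁ s₂ (ker T (η (w q.1 q.2.1) q.2.2) a₀) := by
        rw [Fintype.sum_prod_type]
        calc (M : ℝ) * (S.d : ℝ) ^ (k - (j + 1)) * (s₂ - s₁)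
            = ∑ _m : Fin M, ∑ _q : Fin (S.d ^ (k - (j + 1))), (s₂ - s₁) := by
              simp only [Finset.sum_const, Finset.card_univ, Fintype.card_fin, nsmul_eq_mul]
              push_cast
              ring
          _ ≤ _ := by
              apply Finset.sum_le_sum
              intro m _
              rw [Fintype.sum_prod_type]
              apply Finset.sum_le_sum
              intro q _
              exact hsecond m q
      have hpow : (S.d : ℝ) ^ k = (S.d : ℝ) ^ (k - (j + 1)) * (S.d : ℝ) ^ (j + 1) := by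
        rw [← pow_add, Nat.sub_add_cancel hjk]
      have hDkj := S.dpow_pos (k - (j + 1))
      have h5 := mul_le_mul_of_nonneg_left hs2
        (show (0 : ℝ) ≤ 1 / (M * (S.d : ℝ) ^ k) by positivity)
      have h6 : 1 / (M * (S.d : ℝ) ^ k) * ((M : ℝ) * (S.d : ℝ) ^ (k - (j + 1)) * (s₂ - s₁)) =
          (s₂ - s₁) / (S.d : ℝ) ^ (j + 1) := by
        rw [hpow]
        field_simp
      rw [h6] at h5
      linarith
    have hpos : 0 ≤ (s₂ - s₁) / (S.d : ℝ) ^ (j + 1) := div_nonneg (by linarith) hDj.le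
    have hU2 : ((s₂ - s₁) / (S.d : ℝ) ^ (j + 1)) ^ 2 ≤ U ^ 2 := by
      nlinarith
    have hU3 : (s₂ - s₁) / ((S.d : ℝ) ^ (j + 1)) ^ 2 ≤ U ^ 2 / (s₂ - s₁) := by
      rw [le_div_iff₀ (by linarith)]
      calc (s₂ - s₁) / ((S.d : ℝ) ^ (j + 1)) ^ 2 * (s₂ - s₁)
          = ((s₂ - s₁) / (S.d : ℝ) ^ (j + 1)) ^ 2 := by
            field_simp
        _ ≤ U ^ 2 := hU2
    linarith
  have h1 := limit_le hkey
  have h2 : S.t / ((S.d : ℝ) ^ j * ((S.d : ℝ) ^ (j + 1)) ^ 2) ≤
      (s₂ - s₁) / ((S.d : ℝ) ^ (j + 1)) ^ 2 := by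
    rw [← div_div]
    apply div_le_div_of_nonneg_right _ (by positivity)
    linarith
  linarith

/-- Colouring by the closest preimage. -/
lemma coloring (p : ι → Ω) (hpD : ∀ i, S.D (p i)) (hst : ∀ i, ∃ i', S.F (p i) = p i') (j : ℕ) :
    ∃ χ : ι → Fin (S.d ^ j), ∀ i i', p i ≠ p i' → χ i = χ i' →
      min (S.h j (p i)) (S.h j (p i')) ≤ -Real.log ‖p i - p i'‖ := by
  classical
  obtain ⟨β, hβD, hβT, _⟩ := exists_generic S (Finset.univ.image p) (by
    intro s hs
    simp only [Finset.mem_image, Finset.mem_univ, true_and] at hs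
    obtain ⟨i, rfl⟩ := hs
    exact hpD i)
  obtain ⟨ζ, hζ⟩ := exists_rs S j (β 0)
  have hFD : ∀ i, S.D (S.F^[j] (p i)) := by
    intro i
    obtain ⟨i', hi'⟩ := orb_mem hst j i
    rw [hi']
    exact hpD i'
  have hch : ∀ i, ∃ l, ‖p i - ζ l‖ = S.r j (p i) := by
    intro i
    apply r_eq (hFD i) hζ (hβD 0)
    obtain ⟨i', hi'⟩ := orb_mem hst j i
    rw [hi', nsc]
    exact hβT 0 _ (Finset.mem_image_of_mem _ (Finset.mem_univ _))
  choose χ hχ using hch
  refine ⟨χ, fun i i' hne h => ?_⟩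
  have hpos : 0 < ‖p i - p i'‖ := norm_pos_iff.mpr (sub_ne_zero.mpr hne)
  have h1 := tri (p i) (ζ (χ i)) (p i')
  rw [hχ i, h, nsc, nsc (ζ (χ i')), hχ i'] at h1
  rw [nsc] at h1
  unfold Sys.h
  rcases le_total (S.r j (p i)) (S.r j (p i')) with h2 | h2
  · rw [max_eq_right h2] at h1
    apply min_le_of_right_le
    exact neg_le_neg (Real.log_le_log hpos h1)
  · rw [max_eq_left h2] at h1
    apply min_le_of_left_le
    exact neg_le_neg (Real.log_le_log hpos h1)

end Sys

end Pool.Agent.Y706.SB.UG
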