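import Pool.Agent.Y706.SB.UG.A7

/-!
# The local theorem at a bad place
-/

namespace Pool.Agent.Y706.SB.UG

open Pool.Agent.TH951.W.UB Finset Polynomial

universe u

variable {k : Type*} {K : Type u} [Field k] [Field K] [Algebra k K]

/-- the pairwise excess of a finite set at a place -/
noncomputable def exc (Q : PlaceData k K) (v : Q.Pl) (V : ℝ) (P : Finset K) : ℝ := by
  classical
  exact ∑ x ∈ P, ∑ y ∈ P, if x = y then 0 else ((Q.ord v (x - y) : ℝ) - V)

end Pool.Agent.Y706.SB.UG
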