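import Pool.Agent.Y706.SB.UG.B2

/-!
# The determinant of a configuration at a place
-/

namespace Pool.Agent.Y706.SB.UG

open Pool.Agent.TH951.W.UB Finset

/-- the enumeration of the monomials -/
def mu (m : ℕ) (j : Fin (2 * m)) : ℕ × Bool :=
  if j.1 ≤ m then (j.1, false) else (j.1 - (m + 1), true)

lemma mu_inj (m : ℕ) : Function.Injective (mu m) := by
  intro i j h
  unfold mu at h
  apply Fin.ext
  split_ifs at h with h1 h2 h2
  · exact (Prod.mk.inj h).1
  · exact absurd (Prod.mk.inj h).2 (by simp)
  · exact absurd (Prod.mk.inj h).2 (by simp)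
  · have := (Prod.mk.inj h).1
    omega

lemma mu_closed (m : ℕ) (j : Fin (2 * m)) (a : ℕ) (h : mu m j = (a, true)) :
    ∃ j', mu m j' = (a + 1, false) := by
  unfold mu at h
  split_ifs at h with h1
  · exact absurd (Prod.mk.inj h).2 (by simp)
  · have h2 := (Prod.mk.inj h).1
    have h3 := j.2
    refine ⟨⟨a + 1, by omega⟩, ?_⟩
    unfold mu
    rw [if_pos (by simp only; omega)]

lemma mu_deg (m : ℕ) : ∑ j, (mdeg (mu m j) : ℤ) = (m : ℤ) ^ 2 := by
  have h1 : ∀ j : Fin (2 * m), (mdeg (mu m j) : ℤ) =
      (fun i : ℕ => ((if i ≤ m then i else i - m : ℕ) : ℤ)) j.1 := by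
    intro j
    unfold mdeg mu
    split_ifs with h
    · simp [h]
    · simp only [h, if_false, Bool.toNat_true]
      have : j.1 - (m + 1) + 1 = j.1 - m := by omega
      rw [this]
  simp_rw [h1]
  rw [Fin.sum_univ_eq_sum_range (fun i : ℕ => ((if i ≤ m then i else i - m : ℕ) : ℤ)) (2 * m),
    two_mul, Finset.sum_range_add]
  have h2 : ∑ x ∈ Finset.range m, ((if x ≤ m then x else x - m : ℕ) : ℤ) =
      ∑ x ∈ Finset.range m, (x : ℤ) := by
    apply Finset.sum_congr rfl
    intro x hx
    rw [Finset.mem_range] at hx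
    rw [if_pos hx.le]
  have h3 : ∑ x ∈ Finset.range m, ((if m + x ≤ m then m + x else m + x - m : ℕ) : ℤ) =
      ∑ x ∈ Finset.range m, ((x : ℤ) + if x = 0 then (m : ℤ) else 0) := by
    apply Finset.sum_congr rfl
    intro x _
    by_cases hx : x = 0
    · subst hx
      simp
    · rw [if_neg (by omega), if_neg hx]
      simp
  rw [h2, h3, Finset.sum_add_distrib, Finset.sum_ite_eq']
  have h4 : ∀ m : ℕ, ∑ x ∈ Finset.range m, (x : ℤ) + (∑ x ∈ Finset.range m, (x : ℤ)) =
      (m : ℤ) * (m - 1) := by
    intro m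
    induction m with
    | zero => simp
    | succ m ih =>
      rw [Finset.sum_range_succ]
      push_cast
      linarith
  by_cases hm : m = 0
  · subst hm
    simp
  · rw [if_pos (Finset.mem_range.mpr (by omega)), ← add_assoc, h4 m]
    ring

lemma mu_BB (m : ℕ) (hm : 0 < m) : BB (mu m) = (m : ℤ) - 1 := by
  unfold BB
  have h1 : ∀ j : Fin (2 * m), ((mu m j).2.toNat : ℤ) =
      (fun i : ℕ => if i ≤ m then (0 : ℤ) else 1) j.1 := by
    intro j
    unfold mu
    by_cases h : j.1 ≤ m
    · simp [h]
    · simp [h]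
  simp_rw [h1]
  rw [Fin.sum_univ_eq_sum_range (fun i : ℕ => if i ≤ m then (0 : ℤ) else 1) (2 * m),
    two_mul, Finset.sum_range_add]
  have h2 : ∑ x ∈ Finset.range m, (if x ≤ m then (0 : ℤ) else 1) = 0 := by
    apply Finset.sum_eq_zero
    intro x hx
    rw [Finset.mem_range] at hx
    rw [if_pos hx.le]
  have h3 : ∑ x ∈ Finset.range m, (if m + x ≤ m then (0 : ℤ) else 1) =
      ∑ x ∈ Finset.range m, ((1 : ℤ) - if x = 0 then (1 : ℤ) else 0) := by
    apply Finset.sum_congr rfl
    intro x _
    by_cases hx : x = 0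
    · subst hx
      simp
    · rw [if_neg (by omega), if_neg hx]
      simp
  rw [h2, h3, Finset.sum_sub_distrib, Finset.sum_ite_eq', if_pos (Finset.mem_range.mpr hm)]
  simp

variable {k K : Type*} [Field k] [Field K] [Algebra k K] {Q : PlaceData k K} {v : Q.Pl}

/-- Scaling of the determinant. -/
lemma det_scale {I : Type*} [Fintype I] [DecidableEq I] (x w : I → K) (t s : K)
    (μ : I → ℕ × Bool) (hcl : ∀ j a, μ j = (a, true) → ∃ j', μ j' = (a + 1, false)) :
    (mat (fun i => t * x i) (fun i => t * w i + s * x i) μ).det =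
      t ^ (∑ j, mdeg (μ j)) * (mat x w μ).det := by
  classical
  rw [det_expand (fun j => if (μ j).2 then {μ j, ((μ j).1 + 1, false)} else {μ j})
    (fun j q => if q = μ j then t ^ mdeg (μ j) else t ^ (μ j).1 * s)
    (fun q i => x i ^ q.1 * w i ^ q.2.toNat)
    (mat (fun i => t * x i) (fun i => t * w i + s * x i) μ) (by
      intro j i
      unfold mat
      rw [Matrix.of_apply]
      obtain ⟨⟨a, b⟩, hab⟩ : ∃ q, μ j = q := ⟨_, rfl⟩
      rw [hab]
      cases b
      · simp [mdeg, mul_pow]
      · simp only [if_true, Bool.toNat_true, pow_one]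
        rw [Finset.sum_insert (by simp), Finset.sum_singleton, if_pos rfl, if_neg (by simp)]
        simp only [mdeg, Bool.toNat_true, Bool.toNat_false, pow_one, pow_zero]
        ring)]
  rw [Finset.sum_eq_single μ]
  · congr 1
    simp only [if_true]
    rw [Finset.prod_pow_eq_pow_sum]
  · intro r hr hne
    rw [Fintype.mem_piFinset] at hr
    apply mul_eq_zero_of_right
    obtain ⟨j, hj⟩ : ∃ j, r j ≠ μ j := by
      by_contra hcon
      push Not at hcon
      exact hne (funext hcon)
    obtain ⟨⟨a, b⟩, hab⟩ : ∃ q, μ j = q := ⟨_, rfl⟩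
    have h1 := hr j
    rw [hab] at h1
    cases b
    · simp only [Bool.false_eq_true, if_false, Finset.mem_singleton] at h1
      exact absurd (h1.trans hab.symm) hj
    · simp only [if_true, Finset.mem_insert, Finset.mem_singleton] at h1
      rcases h1 with h1 | h1
      · exact absurd (h1.trans hab.symm) hj
      · obtain ⟨j', hj'⟩ := hcl j a hab
        have h2 := hr j'
        rw [hj'] at h2
        simp only [Bool.false_eq_true, if_false, Finset.mem_singleton] at h2
        have hne' : j ≠ j' := by
          intro he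
          rw [he] at hab
          rw [hab] at hj'
          exact absurd (Prod.mk.inj hj').2 (by simp)
        apply Matrix.det_zero_of_row_eq hne'
        ext i
        simp only [Matrix.of_apply, h1, h2]
  · intro h
    exfalso
    apply h
    rw [Fintype.mem_piFinset]
    intro j
    split_ifs
    · exact Finset.mem_insert_self _ _
    · exact Finset.mem_singleton_self _

/-- pairwise order -/
noncomputable def oz (Q : PlaceData k K) (v : Q.Pl) {I : Type*} [DecidableEq I] (z : I → K)
    (i j : I) : ℤ := if i = j then 0 else Q.ord v (z i - z j)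

/-- The determinant of a configuration. -/
noncomputable def cdet (Q : PlaceData k K) (m : ℕ) (z : Fin (2 * m) → K) (b : Fin (2 * m)) : K :=
  (mat (fun i => z i - z b) (fun i => Q.D (z i - z b)) (mu m)).det

/-- The lower bound for the order of the determinant. -/
theorem cdet_ord (m : ℕ) (hm : 0 < m) (z : Fin (2 * m) → K) (hz : Function.Injective z)
    (b : Fin (2 * m)) (h₀ : ℤ) (hlow : ∀ i j, i ≠ j → h₀ ≤ Q.ord v (z i - z j))
    (hatt : ∃ i j, i ≠ j ∧ Q.ord v (z i - z j) = h₀) (ne : ℤ)
    (hne : (ne = 0 ∧ ∀ i j, i ≠ j → Q.ord v (z i - z j) = h₀) ∨ ne = 1)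
    (hdet : cdet Q m z b ≠ 0) :
    ∑ i, ∑ j, oz Q v z i j + 2 * m * h₀ +
      ∑ i, (((Finset.univ.filter fun j => j < i).sup
        (fun j => (Q.ord v (z i - z j) - h₀).toNat) : ℕ) : ℤ)
      - 4 * (Q.loss v + ne) * (m - 1) ≤ 4 * Q.ord v (cdet Q m z b) := by
  classical
  obtain ⟨i₁, j₁, hij₁, ho₁⟩ := hatt
  set t := z i₁ - z j₁ with ht
  have ht0 : t ≠ 0 := sub_ne_zero.mpr fun h => hij₁ (hz h)
  set x : Fin (2 * m) → K := fun i => (z i - z b) / t with hx
  set w : Fin (2 * m) → K := fun i => Q.D (x i) with hw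
  set o : Fin (2 * m) → Fin (2 * m) → ℕ := fun i j =>
    if i = j then 0 else (Q.ord v (z i - z j) - h₀).toNat with ho
  have hoz : ∀ i j, i ≠ j → (o i j : ℤ) = Q.ord v (z i - z j) - h₀ := by
    intro i j hij
    simp only [ho, if_neg hij]
    exact Int.toNat_of_nonneg (by have := hlow i j hij; omega)
  have hxx : ∀ i j, x i - x j = (z i - z j) / t := by
    intro i j
    simp only [hx]
    rw [← sub_div]
    congr 1
    ring
  have hord : ∀ i j, i ≠ j → Q.ord v (x i - x j) = o i j := by
    intro i j hij
    rw [hxx, PlaceData.ord_div (sub_ne_zero.mpr fun h => hij (hz h)) ht0, ho₁, hoz i j hij]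
  have hGx : ∀ i, Q.G v 0 (x i) := by
    intro i h0
    have hib : i ≠ b := by
      rintro rfl
      apply h0
      simp [hx]
    have h1 : x i = x i - x b := by simp [hx]
    rw [h1, hord i b hib]
    exact Int.natCast_nonneg _
  have hGxx : ∀ i j, i ≠ j → Q.G v (o i j) (x i - x j) := fun i j hij _ => (hord i j hij).ge
  set ℓ : ℤ := Q.loss v + ne with hℓ
  have hGD : ∀ (y : K) (c : ℤ), Q.G v c y → (c = 0 ∨ ne = 1) → Q.G v (c - ℓ) (Q.D y) := by
    intro y c hy hc
    rcases hne with ⟨hne, _⟩ | hne
    · have hc0 : c = 0 := by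
        rcases hc with h | h
        · exact h
        · omega
      subst hc0
      have := PlaceData.G_D' 1 hy
      refine PlaceData.G_mono this (le_of_eq ?_)
      rw [hℓ, hne]
      push_cast
      ring
    · have := PlaceData.G_D 1 hy
      refine PlaceData.G_mono this (le_of_eq ?_)
      rw [hℓ, hne]
      push_cast
      ring
  have hconf : Conf Q v x w o ℓ := by
    refine ⟨?_, ?_, ?_, hGx, ?_, ?_⟩
    · intro i
      simp [ho]
    · intro i j hij h
      have h1 := hxx i j
      rw [h, sub_self] at h1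
      exact div_ne_zero (sub_ne_zero.mpr fun h => hij (hz h)) ht0 h1.symm
    · exact hord
    · intro i
      have := hGD _ 0 (hGx i) (Or.inl rfl)
      rwa [zero_sub] at this
    · intro i j hij
      have h1 : w i - w j = Q.D (x i - x j) := by
        simp only [hw, map_sub]
      rw [h1]
      apply hGD _ _ (hGxx i j hij)
      rcases hne with ⟨_, hall⟩ | hne
      · left
        rw [hoz i j hij, hall i j hij, sub_self]
      · exact Or.inr hne
  have hmain := det_lemma (Q := Q) (v := v) (2 * m) (Fin (2 * m)) (by simp) x w o ℓ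
    (fun i => i.1) Fin.val_injective hconf (mu m) (mu_inj m)
  have hscale : cdet Q m z b = t ^ (∑ j, mdeg (mu m j)) * (mat x w (mu m)).det := by
    rw [← det_scale x w t (Q.D t) (mu m) (mu_closed m)]
    unfold cdet
    congr 2
    · funext i
      simp only [hx]
      field_simp
    · funext i
      have h1 : z i - z b = t * x i := by
        simp only [hx]
        field_simp
      rw [h1, Derivation.leibniz]
      simp only [hw, smul_eq_mul]
      ring
  have hne0 := hdet
  rw [hscale] at hne0
  have e1 := left_ne_zero_of_mul hne0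
  have e2 := right_ne_zero_of_mul hne0
  have hmain' := hmain e2
  rw [hscale, Q.ord_mul v _ _ e1 e2, PlaceData.ord_pow ht0, ho₁]
  have hdeg : ((∑ j, mdeg (mu m j) : ℕ) : ℤ) = (m : ℤ) ^ 2 := by
    push_cast
    exact mu_deg m
  rw [hdeg]
  rw [mu_BB m hm] at hmain'
  have hEE : (EE o : ℤ) = ∑ i, ∑ j, oz Q v z i j - h₀ * (2 * m * (2 * m - 1)) := by
    unfold EE
    push_cast
    have h1 : ∀ i j, (o i j : ℤ) = oz Q v z i j - (h₀ - if i = j then h₀ else 0) := by
      intro i j
      by_cases hij : i = j
      · simp [ho, oz, hij]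
      · rw [hoz i j hij]
        simp [oz, hij]
    simp_rw [h1]
    simp only [Finset.sum_sub_distrib, Finset.sum_const, Finset.sum_ite_eq, Finset.mem_univ,
      if_true, Finset.card_univ, Fintype.card_fin, nsmul_eq_mul]
    push_cast
    ring
  have hMM : (MM (fun i : Fin (2 * m) => i.1) o : ℤ) =
      ∑ i, (((Finset.univ.filter fun j => j < i).sup
        (fun j => (Q.ord v (z i - z j) - h₀).toNat) : ℕ) : ℤ) := by
    unfold MM
    push_cast
    apply Finset.sum_congr rfl
    intro i _
    congr 1
    apply Finset.sup_congr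
    · ext j
      simp
    · intro j hj
      rw [Finset.mem_filter] at hj
      have : i ≠ j := by
        intro he
        rw [he] at hj
        exact lt_irrefl _ hj.2
      simp only [ho, if_neg this]
  rw [hEE, hMM] at hmain'
  linarith

end Pool.Agent.Y706.SB.UG
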