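import Pool.Agent.Y706.SB.UG.B3
import Pool.Agent.Y706.SB.UG.B4
import Pool.Agent.Y706.SB.UG.B5

/-!
# Non-degeneracy of the interpolation functionals
-/

namespace Pool.Agent.Y706.SB.UG

open Pool.Agent.TH951.W.UB Finset Polynomial

variable {k K : Type*} [Field k] [Field K] [Algebra k K]

lemma prod_zero (Q : PlaceData k K) (S : Finset Q.Pl) (x : K) (hx : x ≠ 0)
    (hS : ∀ v, v ∉ S → Q.ord v x = 0) : ∑ v ∈ S, Q.wt v * Q.ord v x = 0 := by
  have h1 := Q.prod_formula x hx S fun v hv => (hS v hv).ge
  have h2 := Q.prod_formula x⁻¹ (inv_ne_zero hx) S fun v hv => by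
    rw [PlaceData.ord_inv hx, hS v hv]
    simp
  have h3 : ∑ v ∈ S, Q.wt v * Q.ord v x⁻¹ = -∑ v ∈ S, Q.wt v * Q.ord v x := by
    rw [← Finset.sum_neg_distrib]
    apply Finset.sum_congr rfl
    intro v _
    rw [PlaceData.ord_inv hx]
    ring
  linarith

/-- the vector of monomials -/
noncomputable def Phi (Q : PlaceData k K) (m : ℕ) (b z : K) : Fin (2 * m) → K := fun j =>
  (z - b) ^ (mu m j).1 * (Q.D (z - b)) ^ (mu m j).2.toNat

lemma mu_fst_le (m : ℕ) (j : Fin (2 * m)) : (mu m j).1 ≤ m := by
  unfold mu
  split_ifs with h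
  · exact h
  · have := j.2
    simp only
    omega

/-- Functionals are nonzero at many points. -/
lemma functional_count (Q : PlaceData k K) (f : K[X]) (hd : 2 ≤ f.natDegree)
    (P : Finset K) (hst : ∀ x ∈ P, f.eval x ∈ P) (m : ℕ)
    (hna : ∀ T ⊆ P, ∀ α β : K, (∀ x ∈ T, Q.D x = α * x + β) →
      ¬ 2 * (f.natDegree + 1) * P.card < 2 * (f.natDegree + 1) * (T.card + m) + P.card)
    (hN : 2 * ((m + 1) * f.natDegree + m) ≤ P.card)
    (b : K) (F : (Fin (2 * m) → K) →ₗ[K] K) (hF : F ≠ 0) :
    ∃ C ⊆ P, (1 / (2 * ((f.natDegree : ℝ) + 1))) * (P.card : ℝ) ≤ (C.card : ℝ) ∧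
      ∀ z ∈ C, F (Phi Q m b z) ≠ 0 := by
  classical
  set c : Fin (2 * m) → K := fun j => F (fun j' => if j = j' then 1 else 0) with hc
  have hFc : ∀ u : Fin (2 * m) → K, F u = ∑ j, u j * c j := by
    intro u
    rw [LinearMap.pi_apply_eq_sum_univ]
    rfl
  set A₀ : K[X] := ∑ j, if (mu m j).2 then C (c j) * X ^ (mu m j).1 else 0 with hA₀
  set B₀ : K[X] := ∑ j, if (mu m j).2 then 0 else C (c j) * X ^ (mu m j).1 with hB₀
  set A : K[X] := A₀.comp (X - C b) with hA
  set B : K[X] := C (Q.D b) * A - B₀.comp (X - C b) with hB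
  have hval : ∀ z, F (Phi Q m b z) = A.eval z * Q.D z - B.eval z := by
    intro z
    have h1 : A.eval z = ∑ j, if (mu m j).2 then c j * (z - b) ^ (mu m j).1 else 0 := by
      rw [hA, eval_comp, hA₀, eval_finsetSum]
      apply Finset.sum_congr rfl
      intro j _
      split_ifs <;> simp
    have h2 : (B₀.comp (X - C b)).eval z =
        ∑ j, if (mu m j).2 then 0 else c j * (z - b) ^ (mu m j).1 := by
      rw [eval_comp, hB₀, eval_finsetSum]
      apply Finset.sum_congr rfl
      intro j _
      split_ifs <;> simp
    have h3 : F (Phi Q m b z) = A.eval z * Q.D (z - b) + (B₀.comp (X - C b)).eval z := by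
      rw [hFc, h1, h2, Finset.sum_mul, ← Finset.sum_add_distrib]
      apply Finset.sum_congr rfl
      intro j _
      unfold Phi
      obtain ⟨⟨a, e⟩, hae⟩ : ∃ q, mu m j = q := ⟨_, rfl⟩
      rw [hae]
      cases e
      · simp
        ring
      · simp
        ring
    rw [h3, hB, eval_sub, eval_mul, eval_C, map_sub]
    ring
  have hdegA₀ : A₀.natDegree ≤ m := by
    rw [hA₀]
    apply natDegree_sum_le_of_forall_le
    intro j _
    split_ifs
    · exact (natDegree_C_mul_X_pow_le _ _).trans (mu_fst_le m j)
    · simp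
  have hdegB₀ : B₀.natDegree ≤ m := by
    rw [hB₀]
    apply natDegree_sum_le_of_forall_le
    intro j _
    split_ifs
    · simp
    · exact (natDegree_C_mul_X_pow_le _ _).trans (mu_fst_le m j)
  have hdegA : A.natDegree ≤ m := by
    rw [hA, natDegree_comp, natDegree_X_sub_C, mul_one]
    exact hdegA₀
  have hdegB : B.natDegree ≤ m := by
    rw [hB]
    refine (natDegree_sub_le _ _).trans (max_le ?_ ?_)
    · exact (natDegree_C_mul_le _ _).trans hdegA
    · rw [natDegree_comp, natDegree_X_sub_C, mul_one]
      exact hdegB₀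
  have hcomp0 : ∀ G : K[X], G.comp (X - C b) = 0 → G = 0 := by
    intro G hG
    have h1 := congrArg (fun q : K[X] => q.comp (X + C b)) hG
    simp only [comp_assoc, sub_comp, X_comp, C_comp, add_sub_cancel_right, comp_X,
      zero_comp] at h1
    exact h1
  have hne : A ≠ 0 ∨ B ≠ 0 := by
    by_contra hcon
    push Not at hcon
    obtain ⟨h1, h2⟩ := hcon
    have hA₀z : A₀ = 0 := hcomp0 _ h1
    have hB₀z : B₀ = 0 := by
      apply hcomp0
      rw [hB, h1, mul_zero, zero_sub, neg_eq_zero] at h2
      exact h2
    apply hF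
    have hcz : ∀ j, c j = 0 := by
      intro j
      by_cases hj : (mu m j).2 = true
      · have h3 : A₀.coeff (mu m j).1 = c j := by
          rw [hA₀, finsetSum_coeff, Finset.sum_eq_single j]
          · rw [if_pos hj, coeff_C_mul, coeff_X_pow, if_pos rfl, mul_one]
          · intro j' _ hne
            split_ifs with hj'
            · rw [coeff_C_mul, coeff_X_pow, if_neg, mul_zero]
              intro he
              apply hne
              apply mu_inj m
              exact Prod.ext he.symm (by rw [hj, hj'])
            · simp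
          · intro h
            exact absurd (Finset.mem_univ _) h
        rw [hA₀z, coeff_zero] at h3
        exact h3.symm
      · have h3 : B₀.coeff (mu m j).1 = c j := by
          rw [hB₀, finsetSum_coeff, Finset.sum_eq_single j]
          · rw [if_neg hj, coeff_C_mul, coeff_X_pow, if_pos rfl, mul_one]
          · intro j' _ hne
            split_ifs with hj'
            · simp
            · rw [coeff_C_mul, coeff_X_pow, if_neg, mul_zero]
              intro he
              apply hne
              apply mu_inj m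
              exact Prod.ext he.symm (by
                rw [Bool.not_eq_true] at hj hj'
                rw [hj, hj'])
          · intro h
            exact absurd (Finset.mem_univ _) h
        rw [hB₀z, coeff_zero] at h3
        exact h3.symm
    ext u
    simp only [LinearMap.comp_apply, LinearMap.zero_apply]
    rw [hFc]
    apply Finset.sum_eq_zero
    intro j _
    rw [hcz j, mul_zero]
  set T := P.filter fun z => F (Phi Q m b z) = 0 with hT
  have hTP : T ⊆ P := Finset.filter_subset _ _
  refine ⟨P \ T, Finset.sdiff_subset, ?_, ?_⟩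
  · by_contra hcon
    push Not at hcon
    have hd0 : (0 : ℝ) < 2 * ((f.natDegree : ℝ) + 1) := by positivity
    rw [one_div, ← div_eq_inv_mul, lt_div_iff₀ hd0] at hcon
    have hbig : 2 * (f.natDegree + 1) * (P \ T).card < P.card := by
      have h1 : (((P \ T).card * (2 * (f.natDegree + 1)) : ℕ) : ℝ) < (P.card : ℝ) := by
        push_cast
        exact hcon
      have h2 : (P \ T).card * (2 * (f.natDegree + 1)) < P.card := by exact_mod_cast h1
      rw [mul_comm]
      exact h2
    obtain ⟨α, β, T', hT'T, hT'c, hT'⟩ := rigidity Q f hd P hst m A B hne hdegA hdegB T hTP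
      (fun x hx => by
        have h1 := (Finset.mem_filter.mp hx).2
        rw [hval] at h1
        exact sub_eq_zero.mp h1) hbig (by omega)
    apply hna T' (hT'T.trans hTP) α β hT'
    have h2 : (P \ T).card + T.card = P.card := by
      rw [Finset.card_sdiff_of_subset hTP]
      have := Finset.card_le_card hTP
      omega
    calc 2 * (f.natDegree + 1) * P.card
        = 2 * (f.natDegree + 1) * (P \ T).card + 2 * (f.natDegree + 1) * T.card := by
          rw [← h2]
          ring
      _ < P.card + 2 * (f.natDegree + 1) * T.card := Nat.add_lt_add_right hbig _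
      _ ≤ P.card + 2 * (f.natDegree + 1) * (T'.card + m) :=
          Nat.add_le_add_left (Nat.mul_le_mul_left _ hT'c) _
      _ = _ := Nat.add_comm _ _
  · intro z hz h0
    rw [Finset.mem_sdiff] at hz
    exact hz.2 (Finset.mem_filter.mpr ⟨hz.1, h0⟩)

/-- Independence of the monomial vectors means that the determinant does not vanish. -/
lemma cdet_ne (Q : PlaceData k K) (m : ℕ) (z : Fin (2 * m) → K) (b : Fin (2 * m))
    (h : LinearIndependent K fun i => Phi Q m (z b) (z i)) : cdet Q m z b ≠ 0 := by
  have h1 : LinearIndependent K (Matrix.of fun i j => Phi Q m (z b) (z i) j).row := h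
  rw [Matrix.linearIndependent_rows_iff_isUnit, Matrix.isUnit_iff_isUnit_det] at h1
  have h2 : cdet Q m z b = (Matrix.of fun i j => Phi Q m (z b) (z i) j).det := by
    unfold cdet
    rw [← Matrix.det_transpose]
    rfl
  rw [h2]
  exact h1.ne_zero

end Pool.Agent.Y706.SB.UG
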