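import Pool.Agent.Y706.SB.UG.D1

/-!
# Balls of closeness and the recursion for multiplicities
-/

namespace Pool.Agent.Y706.SB.UG

open Finset

namespace Sys

variable {Ω : Type*} [NormedField Ω] [IsUltrametricDist Ω] {S : Sys Ω}
variable {j : ℕ} {b b' x z ω : Ω} {I I' : Type} [Fintype I] [Fintype I']

lemma r_le_R (hz : S.D z) (h : S.D (S.F^[j] z)) : S.r j z ≤ S.R := by
  obtain ⟨b, ζ, l₀, hbD, hb, hζ, hr, _⟩ := r_spec h
  rw [hr]
  exact D_sub hz (rs_D hζ hbD l₀)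

lemma exists_u (h : S.D (S.F^[j] z)) : ∃ u : Ω, u ≠ 0 ∧ ‖u‖ = S.r j z := by
  obtain ⟨b, ζ, l₀, hbD, hb, hζ, hr, _⟩ := r_spec h
  refine ⟨z - ζ l₀, ?_, hr.symm⟩
  rw [← norm_pos_iff, ← hr]
  exact r_pos h

/-- Iterates map the closeness ball into the disc. -/
lemma ball_D (h : S.D (S.F^[j] x)) (hz : ‖z - x‖ ≤ S.r j x) : S.D (S.F^[j] z) := by
  obtain ⟨b, ζ, l₀, hbD, hb, hζ, hr, hmin⟩ := r_spec h
  have h1 : ‖S.F^[j] z - b‖ ≤ S.R := by
    rw [← hb, hζ.2 z, hζ.2 x]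
    apply mul_le_mul_of_nonneg_left _ (S.e_pos j).le
    apply Finset.prod_le_prod (fun l _ => norm_nonneg _)
    intro l _
    exact tri_le (hz.trans (hmin l)) le_rfl
  exact tri_le h1 hbD

/-- The map sends closeness balls into closeness balls. -/
lemma ball_map (h : S.D (S.F^[j + 1] x)) (hω : ‖ω - x‖ ≤ S.r (j + 1) x) :
    ‖S.F ω - S.F x‖ ≤ S.r j (S.F x) := by
  classical
  by_contra hcon
  push Not at hcon
  set y := S.F x with hy
  have hyD : S.D (S.F^[j] y) := by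
    rw [hy, ← Function.iterate_succ_apply]
    exact h
  obtain ⟨b, ζ, l₀, hbD, hb, hζ, hr, hmin⟩ := r_spec hyD
  obtain ⟨w, hw1, hw2, hw3, _⟩ := core_eq hζ hζ (by rw [sub_self, norm_zero]; exact S.hR.le) hb l₀
    (S.r j y) _ hr.symm.le hcon
  obtain ⟨ξ, hξ⟩ := rs_one (S := S) (y + w)
  have h1 : ‖S.F x - (y + w)‖ = ‖w‖ := by
    rw [← hy, sub_add_cancel_left, norm_neg]
  have h2 : ‖S.F ω - (y + w)‖ = ‖S.F ω - y‖ := by
    have h3 : ‖(y + w) - y‖ < ‖y - S.F ω‖ := by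
      rw [add_sub_cancel_left, nsc]
      exact hw2
    rw [nsc, tri_lt h3, nsc]
  have h3 : ∃ l, ‖x - ξ l‖ ≤ ‖ω - x‖ := by
    by_contra hc
    push Not at hc
    have h4 : ∀ l, ‖ω - ξ l‖ = ‖x - ξ l‖ := fun l => tri_lt (hc l)
    have h5 := hξ.2 ω
    have h6 := hξ.2 x
    simp_rw [h4] at h5
    rw [← h6, Function.iterate_one, h1, h2] at h5
    linarith
  obtain ⟨l, hl⟩ := h3
  have h4 : S.F (ξ l) = y + w := by
    have := rs_root hξ l
    rwa [Function.iterate_one] at this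
  have h5 : S.D (S.F^[j + 1] (ξ l)) := ball_D h (by rw [nsc]; exact hl.trans hω)
  rw [Function.iterate_succ_apply, h4] at h5
  exact absurd (D_sub h5 hbD) (not_le.mpr hw3)

/-- The closeness radius is constant on closeness balls. -/
lemma r_ball (h : S.D (S.F^[j] x)) (hz : ‖z - x‖ ≤ S.r j x) : S.r j z = S.r j x := by
  classical
  have hzD := ball_D h hz
  obtain ⟨β, hβD, hβT, _⟩ := exists_generic S {S.F^[j] x, S.F^[j] z} (by
    intro s hs
    simp only [Finset.mem_insert, Finset.mem_singleton] at hs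
    rcases hs with rfl | rfl
    · exact h
    · exact hzD)
  have h1 : ‖S.F^[j] x - β 0‖ = S.R := by
    rw [nsc]
    exact hβT 0 _ (by simp)
  have h2 : ‖S.F^[j] z - β 0‖ = S.R := by
    rw [nsc]
    exact hβT 0 _ (by simp)
  obtain ⟨ζ, hζ⟩ := exists_rs S j (β 0)
  obtain ⟨lx, hlx⟩ := r_eq h hζ (hβD 0) h1
  obtain ⟨lz, hlz⟩ := r_eq hzD hζ (hβD 0) h2
  have hle : ∀ l, ‖z - ζ l‖ ≤ ‖x - ζ l‖ := fun l =>
    tri_le (hz.trans (r_far h hζ (hβD 0) h1 l)) le_rfl
  have heq : ∀ l, ‖z - ζ l‖ = ‖x - ζ l‖ := by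
    by_contra hc
    push Not at hc
    obtain ⟨l, hl⟩ := hc
    have h3 : ∏ l, ‖z - ζ l‖ < ∏ l, ‖x - ζ l‖ :=
      Finset.prod_lt_prod (fun l _ => rs_pos hζ (by rw [h2]; exact S.hR) l) (fun l _ => hle l)
        ⟨l, Finset.mem_univ _, lt_of_le_of_ne (hle l) hl⟩
    have h4 := mul_lt_mul_of_pos_left h3 (S.e_pos j)
    rw [← hζ.2, ← hζ.2, h1, h2] at h4
    exact lt_irrefl _ h4
  apply le_antisymm
  · rw [← hlx, ← heq]
    exact r_far hzD hζ (hβD 0) h2 lx
  · rw [← hlz, heq]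
    exact r_far h hζ (hβD 0) h1 lz

omit [IsUltrametricDist Ω] in
lemma cnt_le (ζ : I → Ω) (z : Ω) (ρ : ℝ) : cnt ζ z ρ ≤ Fintype.card I := by
  classical
  unfold cnt
  rw [← Finset.card_univ]
  exact Finset.card_le_card (Finset.filter_subset _ _)

lemma mul_le_pow (z : Ω) : S.mul j z ≤ S.d ^ j := by
  unfold Sys.mul
  refine (cnt_le _ _ _).trans ?_
  rw [Fintype.card_fin]

/-- The closeness is at least `V`. -/
lemma V_le_h (horb : ∀ n, S.D (S.F^[n] x)) (j : ℕ) : S.V ≤ S.h (j + 1) x := by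
  induction j with
  | zero => exact h_one (horb 0) (horb 1)
  | succ j ih =>
    have h1 := h_succ (horb (j + 1)) (horb (j + 1 + 1))
    have h2 : 0 < S.t / (S.d : ℝ) ^ (j + 1) := div_pos S.t_pos (S.dpow_pos _)
    linarith

lemma r_lt_R (horb : ∀ n, S.D (S.F^[n] x)) (j : ℕ) : S.r (j + 1) x < S.R := by
  have h1 := V_le_h horb j
  have h2 := S.t_pos
  unfold Sys.h at h1
  unfold Sys.t at h2
  rw [← Real.log_lt_log_iff (r_pos (horb (j + 1))) S.hR]
  linarith

lemma h_mono (horb : ∀ n, S.D (S.F^[n] x)) (j : ℕ) : S.h j x ≤ S.h (j + 1) x := by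
  have h1 := h_succ (horb j) (horb (j + 1))
  have h2 : 0 < S.t / (S.d : ℝ) ^ j := div_pos S.t_pos (S.dpow_pos _)
  linarith

lemma mul_pos' (horb : ∀ n, S.D (S.F^[n] x)) (j : ℕ) : 0 < S.mul j x := by
  by_contra hcon
  have h0 : S.mul j x = 0 := by omega
  have h1 := h_succ_mul (horb j) (horb (j + 1))
  rw [h0, Nat.cast_zero, zero_mul] at h1
  linarith [S.t_pos]

/-- The recursion for multiplicities. -/
lemma mul_succ_le (h : S.D (S.F^[j + 1] x)) {w : I → Ω} {ζ : I → I' → Ω}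
    (hb : S.D b) (hw : S.IsRS j b w) (hζ : ∀ i, S.IsRS 1 (w i) (ζ i))
    (hc : Fintype.card I' = S.d) (n : ℕ)
    (hn : ∀ i, cnt (ζ i) x (S.r (j + 1) x) ≤ n) : S.mul (j + 1) x ≤ n * S.mul j (S.F x) := by
  classical
  have hcomp := rs_comp hw hζ (by rw [hc, pow_one])
  rw [← mul_eq h hcomp hb]
  have hFx : S.D (S.F^[j] (S.F x)) := by
    rw [← Function.iterate_succ_apply]
    exact h
  rw [← mul_eq hFx hw hb]
  unfold cnt
  apply Finset.card_le_mul_card_image_of_maps_to (f := Prod.fst)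
  · intro q hq
    rw [Finset.mem_filter] at hq ⊢
    refine ⟨Finset.mem_univ _, ?_⟩
    have h1 : S.F (ζ q.1 q.2) = w q.1 := by
      have := rs_root (hζ q.1) q.2
      rwa [Function.iterate_one] at this
    rw [← h1, nsc]
    apply ball_map h
    rw [nsc]
    exact hq.2
  · intro i _
    refine le_trans ?_ (hn i)
    unfold cnt
    apply Finset.card_le_card_of_injOn Prod.snd
    · intro q hq
      rw [Finset.mem_coe, Finset.mem_filter, Finset.mem_filter] at hq
      rw [Finset.mem_coe, Finset.mem_filter]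
      refine ⟨Finset.mem_univ _, ?_⟩
      rw [← hq.2]
      exact hq.1.2
    · intro q hq q' hq' hqq
      rw [Finset.mem_coe, Finset.mem_filter] at hq hq'
      exact Prod.ext (hq.2.trans hq'.2.symm) hqq

/-- The multiplicity is at most `(d - 1) ^ j`. -/
lemma mul_le_pred (j : ℕ) : ∀ x : Ω, (∀ n, S.D (S.F^[n] x)) → S.mul j x ≤ (S.d - 1) ^ j := by
  induction j with
  | zero =>
    intro x _
    have := mul_le_pow (S := S) (j := 0) x
    simpa using this
  | succ j ih =>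
    intro x horb
    obtain ⟨w, hw⟩ := exists_rs S j S.x₀
    choose ζ hζ using fun i => rs_one (S := S) (w i)
    have h1 := mul_succ_le (n := S.d - 1) (horb (j + 1)) D_x₀ hw hζ (by simp) (by
      intro i
      obtain ⟨l, hl⟩ := rs_spread (hζ i) one_ne_zero (rs_D hw D_x₀ i) (horb 0)
      rw [Function.iterate_zero_apply] at hl
      unfold cnt
      have h2 : (Finset.univ.filter fun l => ‖x - ζ i l‖ ≤ S.r (j + 1) x) ⊆
          Finset.univ.erase l := by
        intro l' hl'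
        rw [Finset.mem_erase]
        refine ⟨?_, Finset.mem_univ _⟩
        rintro rfl
        have h3 := (Finset.mem_filter.mp hl').2
        rw [hl] at h3
        exact absurd (r_lt_R horb j) (not_lt.mpr h3)
      refine le_trans (le_of_eq ?_) ((Finset.card_le_card h2).trans (le_of_eq ?_))
      · congr 1
      · rw [Finset.card_erase_of_mem (Finset.mem_univ _), Finset.card_univ, Fintype.card_fin])
    refine h1.trans ?_
    rw [pow_succ, mul_comm]
    apply Nat.mul_le_mul_right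
    apply ih
    intro n
    rw [← Function.iterate_succ_apply]
    exact horb (n + 1)

/-- Critical points of a system. -/
def Crit (S : Sys Ω) (c : Fin (S.d - 1) → Ω) : Prop :=
  ∀ b, ∃ ζ : Fin S.d → Ω, S.IsRS 1 b ζ ∧ ∀ (x : Ω) (ρ : ℝ) (l₁ l₂ : Fin S.d), l₁ ≠ l₂ →
    ‖x - ζ l₁‖ ≤ ρ → ‖x - ζ l₂‖ ≤ ρ → ∃ i, ‖x - c i‖ ≤ ρ

/-- The multiplicity only grows at critical balls. -/
lemma mul_crit {c : Fin (S.d - 1) → Ω} (hc : Crit S c) (horb : ∀ n, S.D (S.F^[n] x)) (j : ℕ) :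
    S.mul (j + 1) x ≤ S.d * S.mul j (S.F x) ∧
      ((¬ ∃ i, ‖x - c i‖ ≤ S.r (j + 1) x) → S.mul (j + 1) x ≤ S.mul j (S.F x)) := by
  classical
  obtain ⟨w, hw⟩ := exists_rs S j S.x₀
  choose ζ hζ hζc using fun i => hc (w i)
  constructor
  · apply mul_succ_le (horb (j + 1)) D_x₀ hw hζ (by simp)
    intro i
    refine (cnt_le _ _ _).trans ?_
    rw [Fintype.card_fin]
  · intro hno
    have h1 := mul_succ_le (n := 1) (horb (j + 1)) D_x₀ hw hζ (by simp) (by
      intro i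
      unfold cnt
      rw [Finset.card_le_one]
      intro l₁ hl₁ l₂ hl₂
      by_contra hne
      exact hno (hζc i x _ l₁ l₂ hne (Finset.mem_filter.mp hl₁).2 (Finset.mem_filter.mp hl₂).2))
    rwa [one_mul] at h1

end Sys

end Pool.Agent.Y706.SB.UG
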