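import Pool.Agent.Y706.SB.UG.D2

/-!
# The test lemma: concentration in closeness balls costs energy
-/

namespace Pool.Agent.Y706.SB.UG

open Finset

namespace Sys

variable {Ω : Type*} [NormedField Ω] [IsUltrametricDist Ω] {S : Sys Ω}
variable {a j k : ℕ} {b b' x y z ω : Ω} {I I' : Type} [Fintype I] [Fintype I'] {ι : Type*}
  [Fintype ι]

/-- sum of the kernel over a fibre -/
lemma sum_ker' {ω : I → Ω} (hω : S.IsRS a b ω) (hbD : S.D b) (hzD : S.D z) {ρ : ℝ}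
    (hρ : 0 < ρ) (hb : ‖S.F^[a] z - b‖ = ρ) {T : ℝ}
    (hT : ((S.d : ℝ) ^ a - 1) * S.t - Real.log ρ ≤ T) :
    ∑ l, ker T z (ω l) = ((S.d : ℝ) ^ a - 1) * S.V - Real.log ρ := by
  classical
  have hb' : 0 < ‖S.F^[a] z - b‖ := by
    rw [hb]
    exact hρ
  have h1 := sum_log hω hb'
  rw [hb] at h1
  have h2 : ∀ l, ker T z (ω l) = -Real.log ‖z - ω l‖ := by
    intro l
    have hpos := rs_pos hω hb' l
    have hne : z ≠ ω l := by
      intro h
      rw [h, sub_self, norm_zero] at hpos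
      exact lt_irrefl _ hpos
    rw [ker_ne hne]
    apply min_eq_left
    refine le_trans ?_ hT
    rw [← Finset.add_sum_erase _ _ (Finset.mem_univ l)] at h1
    have h2 : ∑ l' ∈ Finset.univ.erase l, -Real.log S.R ≤
        ∑ l' ∈ Finset.univ.erase l, -Real.log ‖z - ω l'‖ := by
      apply Finset.sum_le_sum
      intro l' _
      apply neg_le_neg
      exact Real.log_le_log (rs_pos hω hb' l') (D_sub hzD (rs_D hω hbD l'))
    rw [Finset.sum_const, Finset.card_erase_of_mem (Finset.mem_univ _), Finset.card_univ,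
      hω.1, nsmul_eq_mul, Nat.cast_sub (Nat.one_le_pow _ _ S.d_pos), Nat.cast_pow,
      Nat.cast_one] at h2
    unfold Sys.t
    linarith
  simp_rw [h2]
  exact h1

lemma row_sum {M : ℕ} {β : Fin M → Ω} {ω : Fin M → I → Ω} (hω : ∀ m, S.IsRS a (β m) (ω m))
    (hβD : ∀ m, S.D (β m)) (hzD : S.D z) {ρ : ℝ} (hρ : 0 < ρ)
    (hb : ∀ m, ‖S.F^[a] z - β m‖ = ρ) {T : ℝ}
    (hT : ((S.d : ℝ) ^ a - 1) * S.t - Real.log ρ ≤ T) :
    ∑ q : Fin M × I, ker T z (ω q.1 q.2) = M * (((S.d : ℝ) ^ a - 1) * S.V - Real.log ρ) := by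
  rw [Fintype.sum_prod_type]
  have h1 : ∀ m, ∑ l, ker T z (ω m l) = ((S.d : ℝ) ^ a - 1) * S.V - Real.log ρ := fun m =>
    sum_ker' (hω m) (hβD m) hzD hρ (hb m) hT
  simp_rw [h1]
  rw [Finset.sum_const, Finset.card_univ, Fintype.card_fin, nsmul_eq_mul]

lemma row_sum_self {M : ℕ} {β : Fin M → Ω} {ω : Fin M → I → Ω}
    (hω : ∀ m, S.IsRS a (β m) (ω m)) (hβD : ∀ m, S.D (β m)) (m₀ : Fin M) (l₀ : I)
    {ρ : ℝ} (hρ : 0 < ρ) (hb : ∀ m m', m ≠ m' → ‖β m - β m'‖ = ρ) {T : ℝ}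
    (hT : ((S.d : ℝ) ^ a - 1) * S.t - Real.log ρ ≤ T) :
    ∑ q : Fin M × I, ker T (ω m₀ l₀) (ω q.1 q.2) ≤
      (S.d : ℝ) ^ a * T + (M - 1) * (((S.d : ℝ) ^ a - 1) * S.V - Real.log ρ) := by
  classical
  have hM : 0 < M := lt_of_le_of_lt (Nat.zero_le _) m₀.2
  rw [Fintype.sum_prod_type, ← Finset.add_sum_erase _ _ (Finset.mem_univ m₀)]
  apply add_le_add
  · calc ∑ l, ker T (ω m₀ l₀) (ω m₀ l) ≤ ∑ _l : I, T :=
          Finset.sum_le_sum fun l _ => ker_le _ _ _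
      _ = (S.d : ℝ) ^ a * T := by
          rw [Finset.sum_const, Finset.card_univ, (hω m₀).1, nsmul_eq_mul, Nat.cast_pow]
  · apply le_of_eq
    have : ∀ m ∈ Finset.univ.erase m₀, ∑ l, ker T (ω m₀ l₀) (ω m l) =
        ((S.d : ℝ) ^ a - 1) * S.V - Real.log ρ := by
      intro m hm
      apply sum_ker' (hω m) (hβD m) (rs_D (hω m₀) (hβD m₀) l₀) hρ _ hT
      rw [rs_root (hω m₀) l₀]
      exact hb _ _ (Finset.ne_of_mem_erase hm).symm
    rw [Finset.sum_congr rfl this, Finset.sum_const,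
      Finset.card_erase_of_mem (Finset.mem_univ _), Finset.card_univ, Fintype.card_fin,
      nsmul_eq_mul, Nat.cast_sub hM, Nat.cast_one]

/-- the test weights -/
noncomputable def tau (M : ℕ) (I : Type) : (Fin M × I) ⊕ (Fin M × I) → ℝ :=
  Sum.elim (fun _ => 1 / (M : ℝ)) (fun _ => -(1 / (M : ℝ)))

omit [IsUltrametricDist Ω] in
lemma tau_sum (M : ℕ) (I : Type) [Fintype I] : ∑ q, tau M I q = 0 := by
  unfold tau
  rw [Fintype.sum_sum_type]
  simp only [Sum.elim_inl, Sum.elim_inr, Finset.sum_neg_distrib]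
  ring

/-- The energy of the test measure. -/
lemma tau_energy {M : ℕ} (hM : 0 < M) {β β' : Fin M → Ω} {ω ω' : Fin M → I → Ω}
    (hω : ∀ m, S.IsRS a (β m) (ω m)) (hω' : ∀ m, S.IsRS a (β' m) (ω' m))
    (hβD : ∀ m, S.D (β m)) (hβD' : ∀ m, S.D (β' m)) {r₁ r₂ : ℝ} (hr₂ : 0 < r₂) (hr : r₂ ≤ r₁)
    (h1 : ∀ m m', m ≠ m' → ‖β m - β m'‖ = r₂) (h2 : ∀ m m', ‖β m - β' m'‖ = r₁)
    (h3 : ∀ m m', m ≠ m' → ‖β' m - β' m'‖ = r₁) {T : ℝ}
    (hT : ((S.d : ℝ) ^ a - 1) * S.t - Real.log r₂ ≤ T) :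
    ∑ q, ∑ q', tau M I q * tau M I q' *
        ker T (Sum.elim (fun q : Fin M × I => ω q.1 q.2) (fun q : Fin M × I => ω' q.1 q.2) q)
          (Sum.elim (fun q : Fin M × I => ω q.1 q.2) (fun q : Fin M × I => ω' q.1 q.2) q') ≤
      (S.d : ℝ) ^ a * (Real.log r₁ - Real.log r₂) +
        (S.d : ℝ) ^ a * (2 * (S.d : ℝ) ^ a * T - 2 * (((S.d : ℝ) ^ a - 1) * S.V) +
          Real.log r₂ + Real.log r₁) / M := by
  classical
  have hM' : (0 : ℝ) < M := by exact_mod_cast hM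
  have hr₁ : 0 < r₁ := hr₂.trans_le hr
  have hD := S.dpow_pos a
  have hlog : Real.log r₂ ≤ Real.log r₁ := Real.log_le_log hr₂ hr
  have hT1 : ((S.d : ℝ) ^ a - 1) * S.t - Real.log r₁ ≤ T := by linarith
  have hI : Fintype.card I = S.d ^ a := (hω ⟨0, hM⟩).1
  set Da : ℝ := (S.d : ℝ) ^ a with hDa
  set A₂ : ℝ := (Da - 1) * S.V - Real.log r₂ with hA₂
  set A₁ : ℝ := (Da - 1) * S.V - Real.log r₁ with hA₁
  have R11 : ∑ q : Fin M × I, ∑ q' : Fin M × I, ker T (ω q.1 q.2) (ω q'.1 q'.2) ≤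
      (M * Da) * (Da * T + (M - 1) * A₂) := by
    calc _ ≤ ∑ _q : Fin M × I, (Da * T + (M - 1) * A₂) :=
          Finset.sum_le_sum fun q _ => row_sum_self hω hβD q.1 q.2 hr₂ h1 hT
      _ = _ := by
          rw [Finset.sum_const, Finset.card_univ, Fintype.card_prod, Fintype.card_fin, hI,
            nsmul_eq_mul]
          push_cast
          ring
  have R22 : ∑ q : Fin M × I, ∑ q' : Fin M × I, ker T (ω' q.1 q.2) (ω' q'.1 q'.2) ≤
      (M * Da) * (Da * T + (M - 1) * A₁) := by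
    calc _ ≤ ∑ _q : Fin M × I, (Da * T + (M - 1) * A₁) :=
          Finset.sum_le_sum fun q _ => row_sum_self hω' hβD' q.1 q.2 hr₁ h3 hT1
      _ = _ := by
          rw [Finset.sum_const, Finset.card_univ, Fintype.card_prod, Fintype.card_fin, hI,
            nsmul_eq_mul]
          push_cast
          ring
  have R12 : ∑ q : Fin M × I, ∑ q' : Fin M × I, ker T (ω q.1 q.2) (ω' q'.1 q'.2) =
      (M * Da) * (M * A₁) := by
    have : ∀ q : Fin M × I, ∑ q' : Fin M × I, ker T (ω q.1 q.2) (ω' q'.1 q'.2) = M * A₁ := by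
      intro q
      apply row_sum hω' hβD' (rs_D (hω q.1) (hβD q.1) q.2) hr₁ _ hT1
      intro m
      rw [rs_root (hω q.1) q.2]
      exact h2 _ _
    simp_rw [this]
    rw [Finset.sum_const, Finset.card_univ, Fintype.card_prod, Fintype.card_fin, hI,
      nsmul_eq_mul]
    push_cast
    ring
  have R21 : ∑ q : Fin M × I, ∑ q' : Fin M × I, ker T (ω' q.1 q.2) (ω q'.1 q'.2) =
      (M * Da) * (M * A₁) := by
    rw [← R12, Finset.sum_comm]
    apply Finset.sum_congr rfl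
    intro q _
    apply Finset.sum_congr rfl
    intro q' _
    exact ker_symm _ _ _
  have hexp : ∑ q, ∑ q', tau M I q * tau M I q' *
        ker T (Sum.elim (fun q : Fin M × I => ω q.1 q.2) (fun q : Fin M × I => ω' q.1 q.2) q)
          (Sum.elim (fun q : Fin M × I => ω q.1 q.2) (fun q : Fin M × I => ω' q.1 q.2) q') =
      1 / (M : ℝ) ^ 2 * (∑ q : Fin M × I, ∑ q' : Fin M × I, ker T (ω q.1 q.2) (ω q'.1 q'.2)
        - ∑ q : Fin M × I, ∑ q' : Fin M × I, ker T (ω q.1 q.2) (ω' q'.1 q'.2)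
        - ∑ q : Fin M × I, ∑ q' : Fin M × I, ker T (ω' q.1 q.2) (ω q'.1 q'.2)
        + ∑ q : Fin M × I, ∑ q' : Fin M × I, ker T (ω' q.1 q.2) (ω' q'.1 q'.2)) := by
    unfold tau
    rw [Fintype.sum_sum_type]
    simp only [Fintype.sum_sum_type, Sum.elim_inl, Sum.elim_inr, Finset.sum_add_distrib]
    simp only [← Finset.mul_sum]
    have hM0 := hM'.ne'
    field_simp
    ring
  rw [hexp, R12, R21]
  have h4 : 1 / (M : ℝ) ^ 2 * (∑ q : Fin M × I, ∑ q' : Fin M × I,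
      ker T (ω q.1 q.2) (ω q'.1 q'.2) - (M * Da) * (M * A₁) - (M * Da) * (M * A₁) +
      ∑ q : Fin M × I, ∑ q' : Fin M × I, ker T (ω' q.1 q.2) (ω' q'.1 q'.2)) ≤
      1 / (M : ℝ) ^ 2 * ((M * Da) * (Da * T + (M - 1) * A₂) - (M * Da) * (M * A₁) -
        (M * Da) * (M * A₁) + (M * Da) * (Da * T + (M - 1) * A₁)) := by
    apply mul_le_mul_of_nonneg_left _ (by positivity)
    linarith
  refine h4.trans (le_of_eq ?_)
  rw [hA₁, hA₂]
  have hM0 := hM'.ne'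
  field_simp
  ring

/-- the window of distances -/
noncomputable def psi (y : Ω) (r₁ r₂ : ℝ) (w : Ω) : ℝ :=
  Real.log (max ‖w - y‖ r₁) - Real.log (max ‖w - y‖ r₂)

omit [IsUltrametricDist Ω] in
lemma psi_nonneg {r₁ r₂ : ℝ} (h2 : 0 < r₂) (h12 : r₂ ≤ r₁) (w : Ω) : 0 ≤ psi y r₁ r₂ w := by
  unfold psi
  have : Real.log (max ‖w - y‖ r₂) ≤ Real.log (max ‖w - y‖ r₁) :=
    Real.log_le_log (lt_max_of_lt_right h2) (max_le_max le_rfl h12)
  linarith

omit [IsUltrametricDist Ω] in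
lemma psi_top {r₁ r₂ : ℝ} (h12 : r₂ ≤ r₁) {w : Ω} (h : ‖w - y‖ ≤ r₂) :
    psi y r₁ r₂ w = Real.log r₁ - Real.log r₂ := by
  unfold psi
  rw [max_eq_right h, max_eq_right (h.trans h12)]

omit [IsUltrametricDist Ω] in
lemma psi_zero {r₁ r₂ : ℝ} (h12 : r₂ ≤ r₁) {w : Ω} (h : r₁ ≤ ‖w - y‖) :
    psi y r₁ r₂ w = 0 := by
  unfold psi
  rw [max_eq_left h, max_eq_left (h12.trans h), sub_self]

omit [IsUltrametricDist Ω] in
lemma psi_le {r₁ r₂ : ℝ} (h2 : 0 < r₂) (h12 : r₂ ≤ r₁) (w : Ω) :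
    psi y r₁ r₂ w ≤ Real.log r₁ - Real.log r₂ := by
  rcases le_total r₁ ‖w - y‖ with h | h
  · rw [psi_zero h12 h]
    have := Real.log_le_log h2 h12
    linarith
  · unfold psi
    rw [max_eq_right h]
    have : Real.log r₂ ≤ Real.log (max ‖w - y‖ r₂) := Real.log_le_log h2 (le_max_right _ _)
    linarith

end Sys

end Pool.Agent.Y706.SB.UG
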