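import Pool.Agent.Y706.SB.UG.D4

/-!
# Few points are badly approximated
-/

namespace Pool.Agent.Y706.SB.UG

open Finset

namespace Sys

variable {Ω : Type*} [NormedField Ω] [IsUltrametricDist Ω] {S : Sys Ω}
variable {a i j k : ℕ} {x y z : Ω} {ι : Type*} [Fintype ι] {c : Fin (S.d - 1) → Ω}

/-- the critical event -/
noncomputable def crt (S : Sys Ω) (c : Fin (S.d - 1) → Ω) (a i : ℕ) (x : Ω) : ℕ := by
  classical
  exact if ∃ l, ‖S.F^[a] x - c l‖ ≤ S.r (i + 1) (S.F^[a] x) then 1 else 0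

/-- the number of critical events -/
noncomputable def ev (S : Sys Ω) (c : Fin (S.d - 1) → Ω) (j : ℕ) (x : Ω) : ℕ :=
  ∑ i ∈ Finset.range j, crt S c (j - 1 - i) i x

lemma ev_succ (j : ℕ) (x : Ω) : ev S c (j + 1) x = crt S c 0 j x + ev S c j (S.F x) := by
  unfold ev
  rw [Finset.sum_range_succ, add_comm]
  congr 1
  · congr 1
    omega
  · apply Finset.sum_congr rfl
    intro i hi
    rw [Finset.mem_range] at hi
    unfold crt
    have h1 : S.F^[j + 1 - 1 - i] x = S.F^[j - 1 - i] (S.F x) := by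
      rw [← Function.iterate_succ_apply]
      congr 1
      congr 1
      omega
    rw [h1]

lemma mul_le_ev (hc : Crit S c) (j : ℕ) : ∀ x : Ω, (∀ n, S.D (S.F^[n] x)) →
    S.mul j x ≤ S.d ^ ev S c j x := by
  classical
  induction j with
  | zero =>
    intro x _
    have := mul_le_pow (S := S) (j := 0) x
    simpa [ev] using this
  | succ j ih =>
    intro x horb
    have hF : ∀ n, S.D (S.F^[n] (S.F x)) := by
      intro n
      rw [← Function.iterate_succ_apply]
      exact horb (n + 1)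
    obtain ⟨h1, h2⟩ := mul_crit hc horb j
    rw [ev_succ, pow_add]
    unfold crt
    rw [Function.iterate_zero_apply]
    split_ifs with h
    · rw [pow_one]
      exact h1.trans (Nat.mul_le_mul_left _ (ih _ hF))
    · rw [pow_zero, one_mul]
      exact (h2 h).trans (ih _ hF)

/-- no concentration in closeness balls -/
def NoConc (S : Sys Ω) (p : ι → Ω) (J : ℕ) (η : ℝ) : Prop :=
  ∀ (x₀ : ι) (a i : ℕ), i + a + 1 ≤ J → ∀ A : Finset ι,
    (∀ q ∈ A, ‖S.F^[a] (p q) - S.F^[a] (p x₀)‖ ≤ S.r (i + 1) (S.F^[a] (p x₀))) →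
      (A.card : ℝ) ≤ (Fintype.card ι : ℝ) * (S.mul i (S.F^[a] (p x₀)) / (S.d : ℝ) ^ i + η)

omit [IsUltrametricDist Ω] in
lemma pred_cast (S : Sys Ω) : ((S.d - 1 : ℕ) : ℝ) = (S.d : ℝ) - 1 := by
  rw [Nat.cast_sub S.d_pos, Nat.cast_one]

lemma crt_sum (p : ι → Ω) (horb : ∀ q n, S.D (S.F^[n] (p q))) (J : ℕ) (η : ℝ) (hη : 0 ≤ η)
    (hno : NoConc S p J η) (hai : i + a + 1 ≤ J) :
    ∑ q, (crt S c a i (p q) : ℝ) ≤ ((S.d : ℝ) - 1) *
      ((Fintype.card ι : ℝ) * ((((S.d : ℝ) - 1) / S.d) ^ i + η)) := by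
  classical
  have hd := S.dR
  have horb' : ∀ q n, S.D (S.F^[n] (S.F^[a] (p q))) := by
    intro q n
    rw [← Function.iterate_add_apply]
    exact horb q _
  set A : Fin (S.d - 1) → Finset ι := fun l => Finset.univ.filter fun q =>
    ‖S.F^[a] (p q) - c l‖ ≤ S.r (i + 1) (S.F^[a] (p q)) with hA
  have h1 : ∑ q, (crt S c a i (p q) : ℝ) ≤ ∑ l, ((A l).card : ℝ) := by
    have h2 : ∀ l, ((A l).card : ℝ) = ∑ q, if ‖S.F^[a] (p q) - c l‖ ≤
        S.r (i + 1) (S.F^[a] (p q)) then (1 : ℝ) else 0 := by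
      intro l
      rw [Finset.sum_ite, Finset.sum_const_zero, add_zero, Finset.sum_const, nsmul_eq_mul,
        mul_one]
    simp_rw [h2]
    rw [Finset.sum_comm]
    apply Finset.sum_le_sum
    intro q _
    unfold crt
    split_ifs with h
    · obtain ⟨l, hl⟩ := h
      rw [Nat.cast_one]
      calc (1 : ℝ) = if ‖S.F^[a] (p q) - c l‖ ≤ S.r (i + 1) (S.F^[a] (p q)) then (1 : ℝ)
            else 0 := by rw [if_pos hl]
        _ ≤ _ := Finset.single_le_sum (f := fun l => if ‖S.F^[a] (p q) - c l‖ ≤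
            S.r (i + 1) (S.F^[a] (p q)) then (1 : ℝ) else 0)
            (fun l _ => by split_ifs <;> norm_num) (Finset.mem_univ l)
    · rw [Nat.cast_zero]
      exact Finset.sum_nonneg fun l _ => by split_ifs <;> norm_num
  refine h1.trans ?_
  have h3 : ∀ l, ((A l).card : ℝ) ≤ (Fintype.card ι : ℝ) * ((((S.d : ℝ) - 1) / S.d) ^ i + η) := by
    intro l
    by_cases hne : (A l).Nonempty
    · obtain ⟨x₀, hx₀⟩ := hne
      have hx₀' : ‖S.F^[a] (p x₀) - c l‖ ≤ S.r (i + 1) (S.F^[a] (p x₀)) :=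
        (Finset.mem_filter.mp hx₀).2
      have hr₀ : S.r (i + 1) (c l) = S.r (i + 1) (S.F^[a] (p x₀)) := by
        apply r_ball (horb' x₀ (i + 1))
        rw [nsc]
        exact hx₀'
      have h4 := hno x₀ a i hai (A l) (by
        intro q hq
        have hq' : ‖S.F^[a] (p q) - c l‖ ≤ S.r (i + 1) (S.F^[a] (p q)) :=
          (Finset.mem_filter.mp hq).2
        have hr : S.r (i + 1) (c l) = S.r (i + 1) (S.F^[a] (p q)) := by
          apply r_ball (horb' q (i + 1))
          rw [nsc]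
          exact hq'
        refine tri_le (y := c l) ?_ ?_
        · rw [← hr₀, hr]
          exact hq'
        · rw [nsc]
          exact hx₀')
      refine h4.trans ?_
      apply mul_le_mul_of_nonneg_left _ (Nat.cast_nonneg _)
      have h5 : S.mul i (S.F^[a] (p x₀)) ≤ (S.d - 1) ^ i := mul_le_pred i _ (horb' x₀)
      have h6 : (S.mul i (S.F^[a] (p x₀)) : ℝ) ≤ ((S.d : ℝ) - 1) ^ i := by
        rw [← pred_cast]
        exact_mod_cast h5
      have h7 := div_le_div_of_nonneg_right h6 (S.dpow_pos i).le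
      rw [div_pow]
      linarith
    · rw [Finset.not_nonempty_iff_eq_empty] at hne
      rw [hne, Finset.card_empty, Nat.cast_zero]
      apply mul_nonneg (Nat.cast_nonneg _)
      apply add_nonneg _ hη
      apply pow_nonneg
      apply div_nonneg <;> linarith
  calc ∑ l, ((A l).card : ℝ) ≤ ∑ _l : Fin (S.d - 1),
        (Fintype.card ι : ℝ) * ((((S.d : ℝ) - 1) / S.d) ^ i + η) :=
        Finset.sum_le_sum fun l _ => h3 l
    _ = _ := by
        rw [Finset.sum_const, Finset.card_univ, Fintype.card_fin, nsmul_eq_mul, pred_cast]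

lemma geom (d : ℝ) (hd : 2 ≤ d) (j : ℕ) :
    ∑ i ∈ Finset.range j, ((d - 1) / d) ^ i ≤ d := by
  have key : ∑ i ∈ Finset.range j, ((d - 1) / d) ^ i + d * ((d - 1) / d) ^ j = d := by
    induction j with
    | zero => simp
    | succ j ih =>
      rw [Finset.sum_range_succ, pow_succ]
      have hd0 : d ≠ 0 := by linarith
      have h1 : d * (((d - 1) / d) ^ j * ((d - 1) / d)) = (d - 1) * ((d - 1) / d) ^ j := by
        field_simp
      rw [h1]
      linarith
  have h0 : 0 ≤ d * ((d - 1) / d) ^ j := by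
    apply mul_nonneg (by linarith)
    apply pow_nonneg
    apply div_nonneg <;> linarith
  linarith

lemma ev_sum (p : ι → Ω) (horb : ∀ q n, S.D (S.F^[n] (p q))) (J : ℕ) (η : ℝ) (hη : 0 ≤ η)
    (hJη : (J : ℝ) * η ≤ 1) (hno : NoConc S p J η) (hj : j ≤ J) :
    ∑ q, (ev S c j (p q) : ℝ) ≤ (Fintype.card ι : ℝ) * (S.d : ℝ) ^ 2 := by
  have hd := S.dR
  have hN : (0 : ℝ) ≤ Fintype.card ι := Nat.cast_nonneg _
  unfold ev
  push_cast
  rw [Finset.sum_comm]
  calc ∑ i ∈ Finset.range j, ∑ q, (crt S c (j - 1 - i) i (p q) : ℝ)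
      ≤ ∑ i ∈ Finset.range j, ((S.d : ℝ) - 1) *
        ((Fintype.card ι : ℝ) * ((((S.d : ℝ) - 1) / S.d) ^ i + η)) := by
        apply Finset.sum_le_sum
        intro i hi
        rw [Finset.mem_range] at hi
        exact crt_sum p horb J η hη hno (by omega)
    _ = ((S.d : ℝ) - 1) * ((Fintype.card ι : ℝ) *
        (∑ i ∈ Finset.range j, (((S.d : ℝ) - 1) / S.d) ^ i + j * η)) := by
        rw [← Finset.mul_sum, ← Finset.mul_sum, Finset.sum_add_distrib, Finset.sum_const,
          Finset.card_range, nsmul_eq_mul]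
    _ ≤ ((S.d : ℝ) - 1) * ((Fintype.card ι : ℝ) * (S.d + 1)) := by
        apply mul_le_mul_of_nonneg_left _ (by linarith)
        apply mul_le_mul_of_nonneg_left _ hN
        have h1 := geom (S.d : ℝ) hd j
        have h2 : (j : ℝ) * η ≤ J * η := by
          apply mul_le_mul_of_nonneg_right _ hη
          exact_mod_cast hj
        linarith
    _ ≤ _ := by nlinarith

/-- the growth of closeness -/
lemma h_growth (hc : Crit S c) (horb : ∀ n, S.D (S.F^[n] x)) (κ n : ℕ) :
    S.V + (((Finset.Ico 1 (n + 1)).filter fun j => ev S c j x ≤ κ).card : ℝ) *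
      (S.t / (S.d : ℝ) ^ κ) ≤ S.h (n + 1) x := by
  induction n with
  | zero =>
    have h1 := V_le_h horb 0
    simpa using h1
  | succ n ih =>
    have hDκ := S.dpow_pos κ
    have ht := S.t_pos
    have hmono := h_mono horb (n + 1)
    have hI : Finset.Ico 1 (n + 1 + 1) = insert (n + 1) (Finset.Ico 1 (n + 1)) := by
      rw [Finset.insert_Ico_right_eq_Ico_add_one (by omega)]
    rw [hI, Finset.filter_insert]
    split_ifs with h
    · rw [Finset.card_insert_of_notMem (by simp), Nat.cast_add, Nat.cast_one]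
      have h1 := h_succ_mul (horb (n + 1)) (horb (n + 1 + 1))
      have h2 : (S.mul (n + 1) x : ℝ) ≤ (S.d : ℝ) ^ κ := by
        have h3 := (mul_le_ev hc (n + 1) x horb).trans (Nat.pow_le_pow_right S.d_pos h)
        exact_mod_cast h3
      have h3 : S.t ≤ (S.d : ℝ) ^ κ * (S.h (n + 1 + 1) x - S.h (n + 1) x) :=
        h1.trans (mul_le_mul_of_nonneg_right h2 (by linarith))
      have h4 : S.t / (S.d : ℝ) ^ κ ≤ S.h (n + 1 + 1) x - S.h (n + 1) x := by
        rw [div_le_iff₀ hDκ]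
        linarith
      rw [add_mul, one_mul]
      linarith
    · linarith

/-- Few points are badly approximated. -/
theorem few_bad (hc : Crit S c) (p : ι → Ω) (horb : ∀ q n, S.D (S.F^[n] (p q)))
    (Cn κ J : ℕ) (hJ : J = 2 * (1 + Cn * S.d ^ κ)) (hno : NoConc S p J (1 / J)) (B : Finset ι)
    (hB : ∀ q ∈ B, S.h J (p q) < S.V + Cn * S.t) :
    (B.card : ℝ) * κ ≤ 2 * ((Fintype.card ι : ℝ) * (S.d : ℝ) ^ 2) := by
  classical
  have hJpos : 0 < J := by omega
  have hJR : (0 : ℝ) < J := by exact_mod_cast hJpos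
  have ht := S.t_pos
  have hDκ := S.dpow_pos κ
  have h1 : ∑ q, ∑ j ∈ Finset.Ico 1 J, (ev S c j (p q) : ℝ) ≤
      J * ((Fintype.card ι : ℝ) * (S.d : ℝ) ^ 2) := by
    rw [Finset.sum_comm]
    calc ∑ j ∈ Finset.Ico 1 J, ∑ q, (ev S c j (p q) : ℝ)
        ≤ ∑ _j ∈ Finset.Ico 1 J, (Fintype.card ι : ℝ) * (S.d : ℝ) ^ 2 := by
          apply Finset.sum_le_sum
          intro j hj
          rw [Finset.mem_Ico] at hj
          apply ev_sum p horb J (1 / J) (by positivity) (by
            rw [mul_one_div, div_self hJR.ne']) hno hj.2.le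
      _ = ((J - 1 : ℕ) : ℝ) * ((Fintype.card ι : ℝ) * (S.d : ℝ) ^ 2) := by
          rw [Finset.sum_const, Nat.card_Ico, nsmul_eq_mul]
      _ ≤ _ := by
          apply mul_le_mul_of_nonneg_right _ (by positivity)
          exact_mod_cast Nat.sub_le _ _
  have h2 : ∀ q ∈ B, (κ : ℝ) * (J / 2) ≤ ∑ j ∈ Finset.Ico 1 J, (ev S c j (p q) : ℝ) := by
    intro q hq
    obtain ⟨n, hn⟩ : ∃ n, J = n + 1 := ⟨J - 1, by omega⟩
    have h3 := h_growth hc (horb q) κ n
    rw [← hn] at h3
    set G := (Finset.Ico 1 J).filter fun j => ev S c j (p q) ≤ κ with hG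
    set G' := (Finset.Ico 1 J).filter fun j => ¬ ev S c j (p q) ≤ κ with hG'
    have h4 : (G.card : ℝ) * (S.t / (S.d : ℝ) ^ κ) < Cn * S.t := by
      have := hB q hq
      linarith
    have h5 : (G.card : ℝ) < Cn * (S.d : ℝ) ^ κ := by
      have h6 : (G.card : ℝ) * (S.t / (S.d : ℝ) ^ κ) * ((S.d : ℝ) ^ κ / S.t) <
          Cn * S.t * ((S.d : ℝ) ^ κ / S.t) :=
        mul_lt_mul_of_pos_right h4 (div_pos hDκ ht)
      have h7 : (G.card : ℝ) * (S.t / (S.d : ℝ) ^ κ) * ((S.d : ℝ) ^ κ / S.t) = G.card := by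
        field_simp
      have h8 : Cn * S.t * ((S.d : ℝ) ^ κ / S.t) = Cn * (S.d : ℝ) ^ κ := by
        field_simp
      rwa [h7, h8] at h6
    have h6 : G.card < Cn * S.d ^ κ := by exact_mod_cast h5
    have h7 : G.card + G'.card = J - 1 := by
      rw [hG, hG', Finset.card_filter_add_card_filter_not, Nat.card_Ico]
    have h8 : J ≤ 2 * G'.card := by omega
    have h9 : ((J : ℝ) / 2) ≤ G'.card := by
      have : (J : ℝ) ≤ 2 * G'.card := by exact_mod_cast h8
      linarith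
    calc (κ : ℝ) * (J / 2) ≤ κ * G'.card := mul_le_mul_of_nonneg_left h9 (Nat.cast_nonneg _)
      _ = ∑ _j ∈ G', (κ : ℝ) := by rw [Finset.sum_const, nsmul_eq_mul, mul_comm]
      _ ≤ ∑ j ∈ G', (ev S c j (p q) : ℝ) := by
          apply Finset.sum_le_sum
          intro j hj
          have := (Finset.mem_filter.mp hj).2
          exact_mod_cast (by omega : κ ≤ ev S c j (p q))
      _ ≤ _ := Finset.sum_le_sum_of_subset_of_nonneg (Finset.filter_subset _ _)
          fun _ _ _ => Nat.cast_nonneg _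
  have h3 : (B.card : ℝ) * (κ * (J / 2)) ≤ J * ((Fintype.card ι : ℝ) * (S.d : ℝ) ^ 2) := by
    calc (B.card : ℝ) * (κ * (J / 2)) = ∑ _q ∈ B, (κ : ℝ) * (J / 2) := by
          rw [Finset.sum_const, nsmul_eq_mul]
      _ ≤ ∑ q ∈ B, ∑ j ∈ Finset.Ico 1 J, (ev S c j (p q) : ℝ) := Finset.sum_le_sum h2
      _ ≤ ∑ q, ∑ j ∈ Finset.Ico 1 J, (ev S c j (p q) : ℝ) :=
          Finset.sum_le_sum_of_subset_of_nonneg (Finset.subset_univ _)
            fun _ _ _ => Finset.sum_nonneg fun _ _ => Nat.cast_nonneg _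
      _ ≤ _ := h1
  have h4 : (J : ℝ) / 2 * (B.card * κ) ≤
      (J : ℝ) / 2 * (2 * ((Fintype.card ι : ℝ) * (S.d : ℝ) ^ 2)) := by linarith
  exact le_of_mul_le_mul_left h4 (by positivity)

end Sys

end Pool.Agent.Y706.SB.UG
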